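import Mathlib

open Topology Filter Set
open scoped LinearAlgebra.Projectivization

namespace Pool.Agent.Results.MP_035beb_an.Ellipse

noncomputable section

/-- The determinant of two plane vectors. -/
def det2 (u v : ℝ × ℝ) : ℝ := u.1 * v.2 - u.2 * v.1

lemma det2_add_right (u v w : ℝ × ℝ) : det2 u (v + w) = det2 u v + det2 u w := by
  simp only [det2, Prod.fst_add, Prod.snd_add]; ring
lemma det2_add_left (u v w : ℝ × ℝ) : det2 (u + v) w = det2 u w + det2 v w := by
  simp only [det2, Prod.fst_add, Prod.snd_add]; ring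
lemma det2_sub_right (u v w : ℝ × ℝ) : det2 u (v - w) = det2 u v - det2 u w := by
  simp only [det2, Prod.fst_sub, Prod.snd_sub]; ring
lemma det2_sub_left (u v w : ℝ × ℝ) : det2 (u - v) w = det2 u w - det2 v w := by
  simp only [det2, Prod.fst_sub, Prod.snd_sub]; ring
lemma det2_smul_right (r : ℝ) (u v : ℝ × ℝ) : det2 u (r • v) = r * det2 u v := by
  simp only [det2, Prod.smul_fst, Prod.smul_snd, smul_eq_mul]; ring
lemma det2_smul_left (r : ℝ) (u v : ℝ × ℝ) : det2 (r • u) v = r * det2 u v := by
  simp only [det2, Prod.smul_fst, Prod.smul_snd, smul_eq_mul]; ring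
lemma det2_self (u : ℝ × ℝ) : det2 u u = 0 := by
  simp only [det2]; ring
lemma det2_swap (u v : ℝ × ℝ) : det2 v u = - det2 u v := by
  simp only [det2]; ring

lemma exists_smul_of_det2 {u v : ℝ × ℝ} (hu : u ≠ 0) (h : det2 u v = 0) : ∃ r : ℝ, v = r • u := by
  unfold det2 at h
  by_cases h1 : u.1 = 0
  · have h2 : u.2 ≠ 0 := by
      intro h2; exact hu (Prod.ext h1 h2)
    refine ⟨v.2 / u.2, ?_⟩
    rw [h1] at h
    have : v.1 = 0 := by
      have : u.2 * v.1 = 0 := by linarith
      rcases mul_eq_zero.1 this with h3 | h3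
      · exact absurd h3 h2
      · exact h3
    ext
    · simp [h1, this]
    · simp [div_mul_cancel₀ _ h2]
  · refine ⟨v.1 / u.1, ?_⟩
    ext
    · simp [div_mul_cancel₀ _ h1]
    · simp only [Prod.smul_snd, smul_eq_mul]
      field_simp
      linarith

lemma collinear_iff_det2 (P x y : ℝ × ℝ) :
    Collinear ℝ {P, x, y} ↔ det2 (x - P) (y - P) = 0 := by
  constructor
  · intro h
    rw [collinear_iff_of_mem (p₀ := P) (by simp)] at h
    obtain ⟨v, hv⟩ := h
    obtain ⟨r, hr⟩ := hv x (by simp)
    obtain ⟨s, hs⟩ := hv y (by simp)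
    rw [hr, hs]
    simp only [vadd_eq_add, add_sub_cancel_right]
    rw [det2_smul_left, det2_smul_right, det2_self]
    ring
  · intro h
    rw [collinear_iff_of_mem (p₀ := P) (by simp)]
    by_cases hx : x - P = 0
    · refine ⟨y - P, ?_⟩
      intro p hp
      simp only [mem_insert_iff, mem_singleton_iff] at hp
      rcases hp with rfl | rfl | rfl
      · exact ⟨0, by simp⟩
      · exact ⟨0, by simp [sub_eq_zero.1 hx]⟩
      · exact ⟨1, by simp⟩
    · obtain ⟨r, hr⟩ := exists_smul_of_det2 hx h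
      refine ⟨x - P, ?_⟩
      intro p hp
      simp only [mem_insert_iff, mem_singleton_iff] at hp
      rcases hp with rfl | rfl | rfl
      · exact ⟨0, by simp⟩
      · exact ⟨1, by simp⟩
      · exact ⟨r, by rw [← hr]; simp⟩

section Convex

variable {K : Set (ℝ × ℝ)}

lemma frontier_sub (hK : IsCompact K) : frontier K ⊆ K := hK.isClosed.frontier_subset

lemma not_interior {x : ℝ × ℝ} (hx : x ∈ frontier K) : x ∉ interior K := hx.2

lemma mem_frontier_of {x : ℝ × ℝ} (hx : x ∈ K) (hx' : x ∉ interior K) : x ∈ frontier K :=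
  ⟨subset_closure hx, hx'⟩

/-- a point strictly between two points of `K` is interior -/
lemma between_interior (hs : StrictConvex ℝ K) {x y : ℝ × ℝ} (hx : x ∈ K) (hy : y ∈ K)
    (hxy : x ≠ y) {r : ℝ} (h0 : 0 < r) (h1 : r < 1) : x + r • (y - x) ∈ interior K := by
  have := hs hx hy hxy (show 0 < 1 - r by linarith) h0 (by ring)
  convert this using 1
  ext <;> simp <;> ring

/-- three distinct points of the frontier are not collinear -/
lemma no_three (hK : IsCompact K) (hs : StrictConvex ℝ K) {x y z : ℝ × ℝ} (hx : x ∈ frontier K)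
    (hy : y ∈ frontier K) (hz : z ∈ frontier K) (hxy : x ≠ y) (hxz : x ≠ z) (hyz : y ≠ z)
    (h : det2 (y - x) (z - x) = 0) : False := by
  obtain ⟨r, hr⟩ := exists_smul_of_det2 (sub_ne_zero.2 hxy.symm) h
  have hzr : z = x + r • (y - x) := by rw [← hr]; abel
  have hr0 : r ≠ 0 := by
    rintro rfl; apply hxz; rw [hzr]; simp
  have hr1 : r ≠ 1 := by
    rintro rfl; apply hyz; rw [hzr]; simp
  rcases lt_or_gt_of_ne hr0 with h0 | h0
  · -- x between z and y
    have := between_interior hs (frontier_sub hK hz) (frontier_sub hK hy) hyz.symm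
      (r := -r / (1 - r)) (div_pos (by linarith) (by linarith))
      (by rw [div_lt_one (by linarith)]; linarith)
    apply not_interior hx
    convert this using 1
    have h1r : (1 - r) ≠ 0 := by linarith
    rw [hzr]
    ext
    · simp; field_simp; ring
    · simp; field_simp; ring
  · rcases lt_or_gt_of_ne hr1 with h1 | h1
    · apply not_interior hz
      rw [hzr]
      exact between_interior hs (frontier_sub hK hx) (frontier_sub hK hy) hxy h0 h1
    · have := between_interior hs (frontier_sub hK hx) (frontier_sub hK hz) hxz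
        (r := 1 / r) (by positivity) (by rw [div_lt_one (by linarith)]; linarith)
      apply not_interior hy
      convert this using 1
      rw [hzr]
      ext
      · simp; field_simp; ring
      · simp; field_simp; ring

/-- from a frontier point through an interior point one exits at another frontier point -/
lemma exists_opp (hK : IsCompact K) {p y : ℝ × ℝ} (hp : p ∈ interior K)
    (hy : y ∈ frontier K) : ∃ s : ℝ, 1 < s ∧ y + s • (p - y) ∈ frontier K := by
  have hpy : p - y ≠ 0 := by
    intro h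
    rw [sub_eq_zero] at h
    exact not_interior hy (h ▸ hp)
  set f : ℝ → ℝ × ℝ := fun s => y + s • (p - y) with hf
  have hfc : Continuous f := by fun_prop
  obtain ⟨C, hC⟩ := hK.isBounded.exists_norm_le
  have hcomp : IsCompact (f ⁻¹' K ∩ Icc 0 (2 * C / ‖p - y‖)) :=
    (isCompact_Icc).inter_left (hK.isClosed.preimage hfc)
  have hbd : ∀ s, 0 ≤ s → f s ∈ K → s ≤ 2 * C / ‖p - y‖ := by
    intro s hs hsK
    rw [le_div_iff₀ (norm_pos_iff.2 hpy)]
    have h1 := hC _ hsK
    have h2 := hC _ (frontier_sub hK hy)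
    have h3 : s * ‖p - y‖ = ‖f s - y‖ := by
      rw [hf]; simp only [add_sub_cancel_left]; rw [norm_smul, Real.norm_of_nonneg hs]
    rw [h3]
    calc ‖f s - y‖ ≤ ‖f s‖ + ‖y‖ := norm_sub_le _ _
      _ ≤ 2 * C := by linarith
  have hf1 : f 1 = p := by simp [hf]
  have h1mem : (1:ℝ) ∈ f ⁻¹' K ∩ Icc 0 (2 * C / ‖p - y‖) := by
    have : f 1 ∈ K := by rw [hf1]; exact interior_subset hp
    exact ⟨this, zero_le_one, hbd 1 zero_le_one this⟩
  obtain ⟨s, hs, hmax⟩ := hcomp.exists_isGreatest ⟨1, h1mem⟩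
  have hs1 : 1 ≤ s := hmax h1mem
  have hfs : f s ∉ interior K := by
    intro hint
    have : f ⁻¹' (interior K) ∈ 𝓝 s := hfc.continuousAt.preimage_mem_nhds
      (isOpen_interior.mem_nhds hint)
    obtain ⟨ε, hε, hball⟩ := Metric.mem_nhds_iff.1 this
    have h2 : f (s + ε / 2) ∈ interior K := hball (by
      rw [Metric.mem_ball, Real.dist_eq, add_sub_cancel_left, abs_of_pos (by positivity)]
      linarith)
    have h2' : f (s + ε / 2) ∈ K := interior_subset h2
    have h3 : s + ε / 2 ∈ f ⁻¹' K ∩ Icc 0 (2 * C / ‖p - y‖) :=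
      ⟨h2', by linarith, hbd _ (by linarith) h2'⟩
    have := hmax h3
    linarith
  refine ⟨s, lt_of_le_of_ne hs1 ?_, mem_frontier_of hs.1 hfs⟩
  rintro rfl
  apply hfs
  rw [hf1]; exact hp

/-- uniqueness of the exit point -/
lemma opp_unique (hK : IsCompact K) (hs : StrictConvex ℝ K) {p y : ℝ × ℝ} {a b : ℝ}
    (hy : y ∈ frontier K) (ha : a ≠ 0) (hb : b ≠ 0) (hpy : p ≠ y)
    (h1 : y + a • (p - y) ∈ frontier K) (h2 : y + b • (p - y) ∈ frontier K) : a = b := by
  by_contra hab
  have hpy' : p - y ≠ 0 := sub_ne_zero.2 hpy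
  refine no_three hK hs hy h1 h2 ?_ ?_ ?_ ?_
  · intro h
    have : a • (p - y) = 0 := by simpa using h.symm
    rcases smul_eq_zero.1 this with h | h
    · exact ha h
    · exact hpy' h
  · intro h
    have : b • (p - y) = 0 := by simpa using h.symm
    rcases smul_eq_zero.1 this with h | h
    · exact hb h
    · exact hpy' h
  · intro h
    have h3 : (a - b) • (p - y) = 0 := by
      rw [sub_smul]; exact sub_eq_zero.2 (add_left_cancel h)
    rcases smul_eq_zero.1 h3 with h | h
    · exact hab (sub_eq_zero.1 h)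
    · exact hpy' h
  · simp only [add_sub_cancel_left]
    rw [det2_smul_left, det2_smul_right, det2_self]; ring

/-- continuity of the exit point, sequential form -/
lemma opp_tendsto (hK : IsCompact K) (hs : StrictConvex ℝ K) {p y z : ℝ × ℝ}
    {pn yn zn : ℕ → ℝ × ℝ} {τn : ℕ → ℝ}
    (hp : p ∈ interior K) (hy : y ∈ frontier K) (hz : z ∈ frontier K)
    (hpz : ∃ s : ℝ, s ≠ 0 ∧ z = y + s • (p - y))
    (hpn : Tendsto pn atTop (𝓝 p)) (hyn : Tendsto yn atTop (𝓝 y))
    (hzn : ∀ᶠ n in atTop, zn n ∈ frontier K)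
    (hτ : ∀ᶠ n in atTop, τn n ∈ Icc (0:ℝ) 1 ∧ pn n = yn n + τn n • (zn n - yn n)) :
    Tendsto zn atTop (𝓝 z) := by
  have hpy : p ≠ y := by
    rintro rfl; exact not_interior hy hp
  have hcomp : IsCompact (frontier K ×ˢ Icc (0:ℝ) 1) :=
    (hK.of_isClosed_subset isClosed_frontier (frontier_sub hK)).prod isCompact_Icc
  obtain ⟨N, hN⟩ := eventually_atTop.1 (hzn.and hτ)
  refine tendsto_of_subseq_tendsto fun ns hns => ?_
  have hns' : ∀ᶠ n in atTop, N ≤ ns n := hns.eventually_ge_atTop N
  obtain ⟨N', hN'⟩ := eventually_atTop.1 hns'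
  obtain ⟨⟨z', τ⟩, hzτ, φ, hφ, hlim⟩ := hcomp.tendsto_subseq
    (x := fun n => (zn (ns (n + N')), τn (ns (n + N')))) (fun n =>
      ⟨(hN _ (hN' _ (by omega))).1, (hN _ (hN' _ (by omega))).2.1⟩)
  refine ⟨fun n => φ n + N', ?_⟩
  have hmono : Tendsto (fun n => ns (φ n + N')) atTop atTop :=
    hns.comp (tendsto_atTop_mono (fun n => Nat.le_add_right _ _) hφ.tendsto_atTop)
  have h1 : Tendsto (fun n => zn (ns (φ n + N'))) atTop (𝓝 z') :=
    (continuous_fst.tendsto _).comp hlim
  have h2 : Tendsto (fun n => τn (ns (φ n + N'))) atTop (𝓝 τ) :=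
    (continuous_snd.tendsto _).comp hlim
  have h3 : Tendsto (fun n => yn (ns (φ n + N'))) atTop (𝓝 y) := hyn.comp hmono
  have h4 : Tendsto (fun n => pn (ns (φ n + N'))) atTop (𝓝 p) := hpn.comp hmono
  have h5 : Tendsto (fun n => yn (ns (φ n + N')) + τn (ns (φ n + N')) •
      (zn (ns (φ n + N')) - yn (ns (φ n + N')))) atTop (𝓝 (y + τ • (z' - y))) :=
    h3.add (h2.smul (h1.sub h3))
  have h6 : p = y + τ • (z' - y) := by
    refine tendsto_nhds_unique h4 (h5.congr fun n => ?_)
    exact ((hN _ (hN' _ (by omega))).2.2).symm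
  have hτ0 : τ ≠ 0 := by
    rintro rfl; apply hpy; rw [h6]; simp
  have hz' : z' = y + τ⁻¹ • (p - y) := by
    rw [h6]
    simp only [add_sub_cancel_left]
    rw [smul_smul, inv_mul_cancel₀ hτ0, one_smul]; abel
  obtain ⟨s, hs0, hzs⟩ := hpz
  have : τ⁻¹ = s := opp_unique hK hs hy (inv_ne_zero hτ0) hs0 hpy (hz' ▸ hzτ.1) (hzs ▸ hz)
  have hzz : z' = z := by rw [hz', hzs, this]
  rw [← hzz]
  exact h1

/-- The chord map `σ_P` of a closed curve `γ`: the other intersection point with `γ` of the line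
through `P` and `x`; the point `x` itself if there is none. -/
def chordMap (γ : Set (ℝ × ℝ)) (P x : ℝ × ℝ) : ℝ × ℝ :=
  open Classical in
  if h : ∃ y ∈ γ, y ≠ x ∧ Collinear ℝ {P, x, y} then h.choose else x

lemma chordMap_mem {γ : Set (ℝ × ℝ)} {P x : ℝ × ℝ} (hx : x ∈ γ) : chordMap γ P x ∈ γ := by
  classical
  unfold chordMap
  split_ifs with h
  · exact h.choose_spec.1
  · exact hx

lemma chordMap_det (γ : Set (ℝ × ℝ)) (P x : ℝ × ℝ) :
    det2 (x - P) (chordMap γ P x - P) = 0 := by
  classical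
  unfold chordMap
  split_ifs with h
  · exact (collinear_iff_det2 _ _ _).1 h.choose_spec.2.2
  · exact det2_self _

lemma det_sub_of_det {P x y z : ℝ × ℝ} (hxP : x ≠ P) (h1 : det2 (x - P) (y - P) = 0)
    (h2 : det2 (x - P) (z - P) = 0) : det2 (y - x) (z - x) = 0 := by
  obtain ⟨r, hr⟩ := exists_smul_of_det2 (sub_ne_zero.2 hxP) h1
  obtain ⟨s, hs⟩ := exists_smul_of_det2 (sub_ne_zero.2 hxP) h2
  have e1 : y - x = (r - 1) • (x - P) := by
    rw [sub_smul, ← hr, one_smul]; abel
  have e2 : z - x = (s - 1) • (x - P) := by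
    rw [sub_smul, ← hs, one_smul]; abel
  rw [e1, e2, det2_smul_left, det2_smul_right, det2_self]
  ring

lemma chordMap_eq (hK : IsCompact K) (hs : StrictConvex ℝ K) {P x y : ℝ × ℝ}
    (hx : x ∈ frontier K) (hP : P ∉ frontier K) (hy : y ∈ frontier K) (hyx : y ≠ x)
    (hdet : det2 (x - P) (y - P) = 0) : chordMap (frontier K) P x = y := by
  classical
  have hex : ∃ y ∈ frontier K, y ≠ x ∧ Collinear ℝ {P, x, y} :=
    ⟨y, hy, hyx, (collinear_iff_det2 _ _ _).2 hdet⟩
  unfold chordMap
  rw [dif_pos hex]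
  obtain ⟨h1, h2, h3⟩ := hex.choose_spec
  by_contra hne
  have hxP : x ≠ P := by rintro rfl; exact hP hx
  exact no_three hK hs hx h1 hy h2.symm hyx.symm hne
    (det_sub_of_det hxP ((collinear_iff_det2 _ _ _).1 h3) hdet)

lemma chordMap_invol (hK : IsCompact K) (hs : StrictConvex ℝ K) {P x : ℝ × ℝ}
    (hx : x ∈ frontier K) (hP : P ∉ frontier K) :
    chordMap (frontier K) P (chordMap (frontier K) P x) = x := by
  by_cases h : chordMap (frontier K) P x = x
  · rw [h, h]
  · refine chordMap_eq hK hs (chordMap_mem hx) hP hx (Ne.symm h) ?_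
    rw [det2_swap, chordMap_det, neg_zero]

/-- exit point as chord map -/
lemma chordMap_interior (hK : IsCompact K) (hs : StrictConvex ℝ K) {P x p : ℝ × ℝ}
    (hx : x ∈ frontier K) (hP : P ∉ frontier K) (hp : p ∈ interior K)
    (hdet : det2 (x - P) (p - P) = 0) :
    ∃ s : ℝ, 1 < s ∧ chordMap (frontier K) P x = x + s • (p - x) := by
  obtain ⟨s, hs1, hsz⟩ := exists_opp hK hp hx
  refine ⟨s, hs1, ?_⟩
  have hxp : p - x ≠ 0 := by
    intro h
    rw [sub_eq_zero] at h
    exact not_interior hx (h ▸ hp)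
  refine chordMap_eq hK hs hx hP hsz ?_ ?_
  · intro h
    have : s • (p - x) = 0 := by simpa using h
    rcases smul_eq_zero.1 this with h | h
    · linarith
    · exact hxp h
  · have : x + s • (p - x) - P = (1 - s) • (x - P) + s • (p - P) := by
      ext <;> simp <;> ring
    rw [this, det2_add_right, det2_smul_right, det2_smul_right, det2_self, hdet]
    ring

/-- `p` written as a convex combination -/
lemma conv_of_exit {x p z : ℝ × ℝ} {s : ℝ} (hs : 1 < s) (hz : z = x + s • (p - x)) :
    s⁻¹ ∈ Icc (0:ℝ) 1 ∧ p = x + s⁻¹ • (z - x) := by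
  have h0 : s ≠ 0 := by linarith
  refine ⟨⟨by positivity, inv_le_one_of_one_le₀ hs.le⟩, ?_⟩
  rw [hz, add_sub_cancel_left, smul_smul, inv_mul_cancel₀ h0, one_smul]
  abel

end Convex

section Param

variable {K : Set (ℝ × ℝ)} {c : ℝ → ℝ × ℝ}

lemma param_eq_iff (hper : Function.Periodic c 1) (hinj : InjOn c (Ico 0 1)) {s t : ℝ}
    (h : c s = c t) : ∃ n : ℤ, s = t + n := by
  have h1 : ∀ x, c (Int.fract x) = c x := by
    intro x
    have := hper.sub_zsmul_eq (x := x) ⌊x⌋
    rw [zsmul_eq_mul, mul_one] at this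
    exact this
  have h2 : Int.fract s = Int.fract t :=
    hinj ⟨Int.fract_nonneg _, Int.fract_lt_one _⟩ ⟨Int.fract_nonneg _, Int.fract_lt_one _⟩
      (by rw [h1, h1, h])
  refine ⟨⌊s⌋ - ⌊t⌋, ?_⟩
  have h3 := Int.floor_add_fract s
  have h4 := Int.floor_add_fract t
  push_cast
  linarith

lemma param_tendsto (hc : Continuous c) (hper : Function.Periodic c 1)
    (hinj : InjOn c (Ico 0 1)) {a : ℝ} {zn : ℕ → ℝ × ℝ} (hz : ∀ n, zn n ∈ range c)
    (hlim : Tendsto zn atTop (𝓝 (c a))) :
    ∃ sn : ℕ → ℝ, (∀ n, c (sn n) = zn n) ∧ Tendsto sn atTop (𝓝 a) := by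
  have hex : ∀ n, ∃ s ∈ Ico (a - 1/2) (a - 1/2 + 1), c s = zn n := by
    intro n
    obtain ⟨t, ht⟩ := hz n
    obtain ⟨s, hs, hst⟩ := hper.exists_mem_Ico one_pos t (a - 1/2)
    exact ⟨s, hs, by rw [← hst, ht]⟩
  choose sn hsn hcs using hex
  refine ⟨sn, hcs, ?_⟩
  refine tendsto_of_subseq_tendsto fun ns hns => ?_
  obtain ⟨s, hs, φ, hφ, hl⟩ := (isCompact_Icc (a := a - 1/2) (b := a - 1/2 + 1)).tendsto_subseq
    (x := fun n => sn (ns n)) (fun n => ⟨(hsn _).1, (hsn _).2.le⟩)
  refine ⟨φ, ?_⟩
  have h1 : Tendsto (fun n => c (sn (ns (φ n)))) atTop (𝓝 (c s)) := (hc.tendsto s).comp hl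
  have h2 : Tendsto (fun n => c (sn (ns (φ n)))) atTop (𝓝 (c a)) := by
    simp only [hcs]
    exact hlim.comp (hns.comp hφ.tendsto_atTop)
  have h3 : c s = c a := tendsto_nhds_unique h1 h2
  obtain ⟨m, hm⟩ := param_eq_iff hper hinj h3
  have hm0 : m = 0 := by
    have e1 := hs.1
    have e2 := hs.2
    rw [hm] at e1 e2
    have e3 : (-1 : ℝ) < m := by linarith
    have e4 : (m : ℝ) < 1 := by linarith
    have e3' : (-1 : ℤ) < m := by exact_mod_cast e3
    have e4' : m < (1 : ℤ) := by exact_mod_cast e4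
    omega
  rw [hm0] at hm
  have : s = a := by simpa using hm
  rw [← this]
  exact hl

end Param

/-- `h` restricts to a `C^∞` diffeomorphism from the curve `range c` onto `ℝP¹`. -/
def IsDiffeoRP1 (c : ℝ → ℝ × ℝ) (h : ℝ × ℝ → ℙ ℝ (ℝ × ℝ)) : Prop :=
  Set.BijOn h (Set.range c) Set.univ ∧
  ∃ (v : ℝ → ℝ × ℝ) (hv : ∀ t, v t ≠ 0), ContDiff ℝ ((⊤ : ℕ∞) : WithTop ℕ∞) v ∧
    (∀ t, h (c t) = Projectivization.mk ℝ (v t) (hv t)) ∧ ∀ t, det2 (v t) (deriv v t) ≠ 0

section Main

variable {K : Set (ℝ × ℝ)} {c : ℝ → ℝ × ℝ}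

lemma between_mem (hs : StrictConvex ℝ K) {x y : ℝ × ℝ} (hx : x ∈ frontier K) (hxK : x ∈ K)
    (hy : y ∈ interior K) {r : ℝ} (h0 : 0 < r) (h1 : r < 1) : x + r • (y - x) ∈ interior K :=
  between_interior hs hxK (interior_subset hy) (by rintro rfl; exact not_interior hx hy) h0 h1

lemma hasDerivAt_fst_comp {u : ℝ → ℝ × ℝ} {u' : ℝ × ℝ} {a : ℝ} (h : HasDerivAt u u' a) :
    HasDerivAt (fun t => (u t).1) u'.1 a :=
  (ContinuousLinearMap.fst ℝ ℝ ℝ).hasFDerivAt.comp_hasDerivAt a h

lemma hasDerivAt_snd_comp {u : ℝ → ℝ × ℝ} {u' : ℝ × ℝ} {a : ℝ} (h : HasDerivAt u u' a) :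
    HasDerivAt (fun t => (u t).2) u'.2 a :=
  (ContinuousLinearMap.snd ℝ ℝ ℝ).hasFDerivAt.comp_hasDerivAt a h

/-- a line through an interior point is not tangent -/
lemma transversal (hK : IsCompact K) (hs : StrictConvex ℝ K) (hd : Differentiable ℝ c)
    (hreg : ∀ t, deriv c t ≠ 0) (hr : frontier K = range c) {a : ℝ} {P : ℝ × ℝ}
    (hP : P ∈ interior K) : det2 (P - c a) (deriv c a) ≠ 0 := by
  intro h0
  have hAf : ∀ t, c t ∈ frontier K := fun t => by rw [hr]; exact ⟨t, rfl⟩
  have hPA : P - c a ≠ 0 := by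
    intro h
    rw [sub_eq_zero] at h
    exact not_interior (hAf a) (h ▸ hP)
  obtain ⟨r, hrr⟩ := exists_smul_of_det2 hPA h0
  have hr0 : r ≠ 0 := by
    rintro rfl; apply hreg a; rw [hrr]; simp
  have hslope : Tendsto (slope c a) (𝓝[≠] a) (𝓝 (deriv c a)) :=
    hasDerivAt_iff_tendsto_slope.1 (hd a).hasDerivAt
  have hmap : Tendsto (fun ε : ℝ => a + ε / r) (𝓝[>] 0) (𝓝[≠] a) := by
    refine tendsto_nhdsWithin_iff.2 ⟨?_, ?_⟩
    · have : Tendsto (fun ε : ℝ => a + ε / r) (𝓝 0) (𝓝 (a + 0 / r)) :=
        (continuous_const.add (continuous_id.div_const r)).tendsto 0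
      rw [zero_div, add_zero] at this
      exact this.mono_left nhdsWithin_le_nhds
    · filter_upwards [self_mem_nhdsWithin] with ε hε
      have : ε / r ≠ 0 := div_ne_zero (ne_of_gt hε) hr0
      simpa using this
  have h1 := hslope.comp hmap
  have h2 : Tendsto (fun ε : ℝ => c a + r⁻¹ • (slope c a (a + ε / r))) (𝓝[>] 0) (𝓝 P) := by
    have := (h1.const_smul r⁻¹).const_add (c a)
    rw [hrr, smul_smul, inv_mul_cancel₀ hr0, one_smul, add_sub_cancel] at this
    exact this
  have h3 : ∀ᶠ ε : ℝ in 𝓝[>] 0, c a + r⁻¹ • (slope c a (a + ε / r)) ∈ interior K :=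
    h2.eventually (isOpen_interior.mem_nhds hP)
  have h4 : ∀ᶠ ε : ℝ in 𝓝[>] 0, ε < 1 := nhdsWithin_le_nhds (gt_mem_nhds one_pos)
  obtain ⟨ε, hε⟩ := (h3.and (h4.and self_mem_nhdsWithin)).exists
  obtain ⟨e1, e2, e3⟩ := hε
  have e3' : 0 < ε := e3
  have h5 := between_mem hs (hAf a) (frontier_sub hK (hAf a)) e1 e3' e2
  apply not_interior (hAf (a + ε / r))
  convert h5 using 1
  have : slope c a (a + ε / r) = (ε / r)⁻¹ • (c (a + ε / r) - c a) := by
    rw [slope_def_module, add_sub_cancel_left]
  rw [this, add_sub_cancel_left, smul_smul, smul_smul]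
  have : ε * r⁻¹ * (ε / r)⁻¹ = 1 := by field_simp
  rw [this, one_smul]
  abel

/-- The key step: a harmonic pair `P`, `Q` on the line `AB` gives an involution. -/
lemma involution (hK : IsCompact K) (hs : StrictConvex ℝ K) (hd : Differentiable ℝ c)
    (hper : Function.Periodic c 1) (hinj : InjOn c (Ico 0 1))
    (hreg : ∀ t, deriv c t ≠ 0) (hr : frontier K = range c)
    {A B : ℝ × ℝ} (hA : A ∈ frontier K) (hB : B ∈ frontier K) (hAB : A ≠ B)
    {p q : ℝ} (hp0 : 0 < p) (hp1 : p < 1) (hq : 1 < q) (hpq : p + q = 2 * p * q)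
    {P Q : ℝ × ℝ} (hP : P = A + p • (B - A)) (hQ : Q = A + q • (B - A))
    {h : ℝ × ℝ → ℙ ℝ (ℝ × ℝ)} (hh : IsDiffeoRP1 c h) {M : (ℝ × ℝ) ≃ₗ[ℝ] (ℝ × ℝ)}
    (hconj : ∀ x ∈ frontier K,
      h (chordMap (frontier K) Q (chordMap (frontier K) P x)) = M • h x) :
    ∀ x ∈ frontier K, chordMap (frontier K) Q (chordMap (frontier K) P
      (chordMap (frontier K) Q (chordMap (frontier K) P x))) = x := by
  set e : ℝ × ℝ := B - A with he
  have he0 : e ≠ 0 := sub_ne_zero.2 hAB.symm
  have hB' : B = A + (1:ℝ) • e := by rw [he]; simp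
  have hPint : P ∈ interior K := by
    rw [hP, he]
    exact between_interior hs (frontier_sub hK hA) (frontier_sub hK hB) hAB hp0 hp1
  have hPf : P ∉ frontier K := fun h => not_interior h hPint
  have hQf : Q ∉ frontier K := by
    intro hQ'
    refine no_three hK hs hA hB hQ' hAB ?_ ?_ ?_
    · intro h
      have : q • e = 0 := by rw [hQ] at h; simpa using h.symm
      rcases smul_eq_zero.1 this with h | h
      · linarith
      · exact he0 h
    · intro h
      have : (q - 1) • e = 0 := by
        rw [sub_smul, one_smul]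
        have h' := h
        rw [hQ, hB'] at h'
        have := add_left_cancel h'
        rw [one_smul] at this
        rw [← this]; simp
      rcases smul_eq_zero.1 this with h | h
      · linarith
      · exact he0 h
    · rw [hQ, add_sub_cancel_left, ← he, det2_smul_right, det2_self]; ring
  have hσA : chordMap (frontier K) P A = B := by
    refine chordMap_eq hK hs hA hPf hB hAB.symm ?_
    have e1 : A - P = (-p) • e := by rw [hP]; simp
    have e2 : B - P = (1 - p) • e := by rw [hP, hB', sub_smul]; abel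
    rw [e1, e2, det2_smul_left, det2_smul_right, det2_self]; ring
  have hσB : chordMap (frontier K) Q B = A := by
    refine chordMap_eq hK hs hB hQf hA hAB ?_
    have e1 : A - Q = (-q) • e := by rw [hQ]; simp
    have e2 : B - Q = (1 - q) • e := by rw [hQ, hB', sub_smul]; abel
    rw [e1, e2, det2_smul_left, det2_smul_right, det2_self]; ring
  have hσA' : chordMap (frontier K) P B = A := by
    rw [← hσA]; exact chordMap_invol hK hs hA hPf
  have hσB' : chordMap (frontier K) Q A = B := by
    rw [← hσB]; exact chordMap_invol hK hs hB hQf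
  obtain ⟨a, ha⟩ : A ∈ range c := hr ▸ hA
  obtain ⟨b, hb⟩ : B ∈ range c := hr ▸ hB
  have hcf : ∀ t, c t ∈ frontier K := fun t => by rw [hr]; exact ⟨t, rfl⟩
  have hcc : Continuous c := hd.continuous
  -- the sequences
  set tn : ℕ → ℝ := fun n => a + 1 / ((n : ℝ) + 1) with htn
  have htn_lim : Tendsto tn atTop (𝓝 a) := by
    have := (tendsto_one_div_add_atTop_nhds_zero_nat (𝕜 := ℝ)).const_add a
    rwa [add_zero] at this
  have htn_ne : ∀ n, tn n - a ≠ 0 := by
    intro n
    simp only [htn, add_sub_cancel_left]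
    positivity
  set xn : ℕ → ℝ × ℝ := fun n => c (tn n) with hxn
  have hxn_lim : Tendsto xn atTop (𝓝 A) := by
    rw [← ha]; exact (hcc.tendsto a).comp htn_lim
  have hxnf : ∀ n, xn n ∈ frontier K := fun n => hcf _
  set yn : ℕ → ℝ × ℝ := fun n => chordMap (frontier K) P (xn n) with hyn
  have hynf : ∀ n, yn n ∈ frontier K := fun n => chordMap_mem (hxnf n)
  set zn : ℕ → ℝ × ℝ := fun n => chordMap (frontier K) Q (yn n) with hzn
  have hznf : ∀ n, zn n ∈ frontier K := fun n => chordMap_mem (hynf n)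
  have hyn_lim : Tendsto yn atTop (𝓝 B) := by
    have hex : ∀ n, ∃ s : ℝ, 1 < s ∧ yn n = xn n + s • (P - xn n) := fun n =>
      chordMap_interior hK hs (hxnf n) hPf hPint (by rw [sub_self]; simp [det2])
    choose sn hsn1 hsn2 using hex
    refine opp_tendsto hK hs (p := P) (y := A) (z := B) (pn := fun _ => P) (yn := xn)
      (τn := fun n => (sn n)⁻¹) hPint hA hB ⟨1 / p, by positivity, ?_⟩ tendsto_const_nhds hxn_lim
      (Eventually.of_forall hynf) (Eventually.of_forall fun n => conv_of_exit (hsn1 n) (hsn2 n))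
    rw [hP, add_sub_cancel_left, smul_smul, one_div, inv_mul_cancel₀ hp0.ne', hB']
  have hzn_lim : Tendsto zn atTop (𝓝 A) := by
    set τ : ℝ := (p - 1) / (q - 1) with hτ
    have hq1 : q - 1 ≠ 0 := by linarith
    have hPB : P = B + τ • (Q - B) := by
      have e1 : Q - B = (q - 1) • e := by rw [hQ, hB', sub_smul]; abel
      rw [e1, smul_smul, hτ, div_mul_cancel₀ _ hq1, hP, hB', sub_smul]; abel
    set pn : ℕ → ℝ × ℝ := fun n => yn n + τ • (Q - yn n) with hpn
    have hpn_lim : Tendsto pn atTop (𝓝 P) := by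
      rw [hPB]
      exact hyn_lim.add ((tendsto_const_nhds.sub hyn_lim).const_smul τ)
    have hpn_int : ∀ᶠ n in atTop, pn n ∈ interior K :=
      hpn_lim.eventually (isOpen_interior.mem_nhds hPint)
    have hex : ∀ n, ∃ s : ℝ, pn n ∈ interior K → (1 < s ∧ zn n = yn n + s • (pn n - yn n)) := by
      intro n
      by_cases hn : pn n ∈ interior K
      · obtain ⟨s, h1, h2⟩ := chordMap_interior hK hs (hynf n) hQf hn (by
          have : pn n - Q = (1 - τ) • (yn n - Q) := by
            rw [hpn]; ext <;> simp <;> ring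
          rw [this, det2_smul_right, det2_self, mul_zero])
        exact ⟨s, fun _ => ⟨h1, h2⟩⟩
      · exact ⟨0, fun h => absurd h hn⟩
    choose sn hsn using hex
    refine opp_tendsto hK hs (p := P) (y := B) (z := A) (pn := pn) (yn := yn)
      (τn := fun n => (sn n)⁻¹) hPint hB hA ⟨1 / (1 - p), ?_, ?_⟩ hpn_lim hyn_lim
      (Eventually.of_forall hznf) (hpn_int.mono fun n hn => conv_of_exit (hsn n hn).1 (hsn n hn).2)
    · have : 0 < 1 - p := by linarith
      positivity
    · have hp1' : 1 - p ≠ 0 := by linarith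
      have e2 : P - B = (-(1 - p)) • e := by
        rw [hP, hB']
        ext <;> simp <;> ring
      rw [e2, smul_smul, hB']
      have : 1 / (1 - p) * (-(1 - p)) = -1 := by field_simp
      rw [this]
      ext <;> simp
  obtain ⟨sn, hsn_c, hsn_lim⟩ := param_tendsto hcc hper hinj (a := a) (zn := zn)
    (fun n => by rw [← hr]; exact hznf n) (by rw [ha]; exact hzn_lim)
  -- affine coordinates along and across the line `AB`
  set D : ℝ := e.1 ^ 2 + e.2 ^ 2 with hD
  have hD0 : 0 < D := by
    rcases (show e.1 ≠ 0 ∨ e.2 ≠ 0 by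
      by_contra hcon
      push Not at hcon
      exact he0 (Prod.ext hcon.1 hcon.2)) with h1 | h1
    · have := sq_nonneg e.2; positivity
    · have := sq_nonneg e.1; positivity
  set f : ℝ × ℝ → ℝ := fun x => det2 e (x - A) with hf
  set g : ℝ × ℝ → ℝ := fun x => (e.1 * (x - A).1 + e.2 * (x - A).2) / D with hg
  have hfc : Continuous f := by
    simp only [hf, det2, Prod.fst_sub, Prod.snd_sub]; fun_prop
  have hgc : Continuous g := by
    simp only [hg, Prod.fst_sub, Prod.snd_sub]; fun_prop
  have hgA : g A = 0 := by simp [hg]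
  have hgB : g B = 1 := by
    simp only [hg]
    rw [← he, hD]
    have : e.1 * e.1 + e.2 * e.2 = e.1 ^ 2 + e.2 ^ 2 := by ring
    rw [this]
    exact div_self hD0.ne'
  have hkey : ∀ (r : ℝ) (x y : ℝ × ℝ), det2 (x - (A + r • e)) (y - (A + r • e)) = 0 →
      (g x - r) * f y = f x * (g y - r) := by
    intro r x y h0
    have h1 : D * ((g x - r) * f y - f x * (g y - r)) =
        D * det2 (x - (A + r • e)) (y - (A + r • e)) := by
      simp only [hg, hf, det2, Prod.fst_sub, Prod.snd_sub, Prod.fst_add, Prod.snd_add,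
        Prod.smul_fst, Prod.smul_snd, smul_eq_mul]
      field_simp
      rw [hD]
      ring
    rw [h0, mul_zero] at h1
    rcases mul_eq_zero.1 h1 with h | h
    · exact absurd h hD0.ne'
    · linarith
  have rel1 : ∀ n, f (zn n) * ((g (yn n) - q) * (g (xn n) - p)) =
      f (xn n) * ((g (yn n) - p) * (g (zn n) - q)) := by
    intro n
    have k1 := hkey p (xn n) (yn n) (by rw [← hP]; exact chordMap_det _ _ _)
    have k2 := hkey q (yn n) (zn n) (by rw [← hQ]; exact chordMap_det _ _ _)
    calc f (zn n) * ((g (yn n) - q) * (g (xn n) - p))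
        = ((g (yn n) - q) * f (zn n)) * (g (xn n) - p) := by ring
      _ = (f (yn n) * (g (zn n) - q)) * (g (xn n) - p) := by rw [k2]
      _ = ((g (xn n) - p) * f (yn n)) * (g (zn n) - q) := by ring
      _ = (f (xn n) * (g (yn n) - p)) * (g (zn n) - q) := by rw [k1]
      _ = _ := by ring
  -- the function `φ = f ∘ c`
  set φ : ℝ → ℝ := fun t => f (c t) with hφ
  have hφd : HasDerivAt φ (det2 e (deriv c a)) a := by
    have h1 := (hd a).hasDerivAt
    have h2 := hasDerivAt_fst_comp h1
    have h3 := hasDerivAt_snd_comp h1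
    have h4 := ((h3.sub_const A.2).const_mul e.1).sub ((h2.sub_const A.1).const_mul e.2)
    exact h4
  have hφa : φ a = 0 := by simp [hφ, hf, ha, det2]
  have hφ1 : det2 e (deriv c a) ≠ 0 := by
    have := transversal hK hs hd hreg hr (a := a) hPint
    rw [ha, hP, add_sub_cancel_left, det2_smul_left] at this
    exact right_ne_zero_of_mul this
  set Φ : ℝ → ℝ := dslope φ a with hΦ
  have hΦ_eq : ∀ s, φ s = (s - a) * Φ s := by
    intro s
    have := sub_smul_dslope φ a s
    rw [hφa, sub_zero, smul_eq_mul] at this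
    exact this.symm
  have hΦ_lim : ContinuousAt Φ a := continuousAt_dslope_same.2 hφd.differentiableAt
  have hΦa : Φ a = det2 e (deriv c a) := by rw [hΦ, dslope_same, hφd.deriv]
  -- the ratio
  set rn : ℕ → ℝ := fun n => (sn n - a) / (tn n - a) with hrn
  have hr_lim : Tendsto rn atTop (𝓝 (-1)) := by
    set un : ℕ → ℝ := fun n => (g (yn n) - q) * (g (xn n) - p) with hun
    set wn : ℕ → ℝ := fun n => (g (yn n) - p) * (g (zn n) - q) with hwn
    have hun_lim : Tendsto un atTop (𝓝 ((1 - q) * (0 - p))) := by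
      rw [← hgB, ← hgA]
      exact (((hgc.tendsto B).comp hyn_lim).sub_const q).mul
        (((hgc.tendsto A).comp hxn_lim).sub_const p)
    have hwn_lim : Tendsto wn atTop (𝓝 ((1 - p) * (0 - q))) := by
      rw [← hgB, ← hgA]
      exact (((hgc.tendsto B).comp hyn_lim).sub_const p).mul
        (((hgc.tendsto A).comp hzn_lim).sub_const q)
    have hrel : ∀ n, rn n * (Φ (sn n) * un n) = Φ (tn n) * wn n := by
      intro n
      have h1 := rel1 n
      rw [← hsn_c n, hxn] at h1
      change φ (sn n) * un n = φ (tn n) * ((g (yn n) - p) * (g (c (sn n)) - q)) at h1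
      rw [hΦ_eq, hΦ_eq (tn n)] at h1
      have h2 : (g (yn n) - p) * (g (c (sn n)) - q) = wn n := by
        simp only [hwn, hsn_c]
      rw [h2] at h1
      have h3 := htn_ne n
      simp only [hrn]
      field_simp
      linarith
    have hden : Tendsto (fun n => Φ (sn n) * un n) atTop (𝓝 (Φ a * ((1 - q) * (0 - p)))) :=
      (hΦ_lim.tendsto.comp hsn_lim).mul hun_lim
    have hnum : Tendsto (fun n => Φ (tn n) * wn n) atTop (𝓝 (Φ a * ((1 - p) * (0 - q)))) :=
      (hΦ_lim.tendsto.comp htn_lim).mul hwn_lim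
    have hne : Φ a * ((1 - q) * (0 - p)) ≠ 0 := by
      rw [hΦa]
      have : (1 - q) * (0 - p) ≠ 0 := by
        have : 0 < (1 - q) * (0 - p) := by nlinarith
        exact this.ne'
      exact mul_ne_zero hφ1 this
    have hquot := hnum.div hden hne
    have hval : Φ a * ((1 - p) * (0 - q)) / (Φ a * ((1 - q) * (0 - p))) = -1 := by
      rw [div_eq_iff hne]
      have : (1 - p) * (0 - q) = - ((1 - q) * (0 - p)) := by linarith
      rw [this]; ring
    rw [hval] at hquot
    refine hquot.congr' ?_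
    filter_upwards [hden.eventually_ne hne] with n hn
    simp only [Pi.div_apply]
    rw [div_eq_iff hn, hrel n]
  -- the projective side
  obtain ⟨hbij, v, hv, hvs, hhv, hW⟩ := hh
  have hvd : Differentiable ℝ v := hvs.differentiable (by simp)
  have hfixA : h A = M • h A := by
    have := hconj A hA
    rwa [hσA, hσB] at this
  have hfixB : h B = M • h B := by
    have := hconj B hB
    rwa [hσA', hσB'] at this
  rw [← ha, hhv a, Projectivization.smul_mk] at hfixA
  rw [← hb, hhv b, Projectivization.smul_mk] at hfixB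
  obtain ⟨l, hl⟩ := (Projectivization.mk_eq_mk_iff' _ _ _ _ _).1 hfixA.symm
  obtain ⟨m, hm⟩ := (Projectivization.mk_eq_mk_iff' _ _ _ _ _).1 hfixB.symm
  have hl' : M (v a) = l • v a := hl.symm
  have hm' : M (v b) = m • v b := hm.symm
  have hl0 : l ≠ 0 := by
    rintro rfl
    rw [zero_smul] at hl'
    exact hv a (M.map_eq_zero_iff.1 hl')
  set Δ : ℝ := det2 (v a) (v b) with hΔ
  have hΔ0 : Δ ≠ 0 := by
    intro h0
    obtain ⟨r, hr'⟩ := exists_smul_of_det2 (hv a) h0
    have h1 : h (c b) = h (c a) := by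
      rw [hhv, hhv]
      exact (Projectivization.mk_eq_mk_iff' _ _ _ _ _).2 ⟨r, hr'.symm⟩
    have h2 := hbij.injOn ⟨b, rfl⟩ ⟨a, rfl⟩ h1
    rw [ha, hb] at h2
    exact hAB h2.symm
  have cramer : ∀ w : ℝ × ℝ, Δ • w = det2 w (v b) • v a + det2 (v a) w • v b := by
    intro w
    ext
    · simp only [hΔ, det2, Prod.smul_fst, Prod.fst_add, smul_eq_mul]; ring
    · simp only [hΔ, det2, Prod.smul_snd, Prod.snd_add, smul_eq_mul]; ring
  have hMw : ∀ w : ℝ × ℝ, Δ • M w = (det2 w (v b) * l) • v a + (det2 (v a) w * m) • v b := by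
    intro w
    rw [← map_smul, cramer w, map_add, map_smul, map_smul, hl', hm', smul_smul, smul_smul]
  have hM1 : ∀ w : ℝ × ℝ, det2 (v a) (M w) = m * det2 (v a) w := by
    intro w
    have h1 := congrArg (det2 (v a)) (hMw w)
    rw [det2_smul_right, det2_add_right, det2_smul_right, det2_smul_right, det2_self, ← hΔ] at h1
    apply mul_left_cancel₀ hΔ0
    linarith
  have hM2 : ∀ w : ℝ × ℝ, det2 (M w) (v b) = l * det2 w (v b) := by
    intro w
    have h1 : det2 (Δ • M w) (v b) =
      det2 ((det2 w (v b) * l) • v a + (det2 (v a) w * m) • v b) (v b) := by rw [hMw w]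
    rw [det2_smul_left, det2_add_left, det2_smul_left, det2_smul_left, det2_self, ← hΔ] at h1
    apply mul_left_cancel₀ hΔ0
    linarith
  have rel2 : ∀ n, det2 (v a) (v (sn n)) * (l * det2 (v (tn n)) (v b)) =
      det2 (v (sn n)) (v b) * (m * det2 (v a) (v (tn n))) := by
    intro n
    have h1 := hconj (xn n) (hxnf n)
    change h (zn n) = M • h (c (tn n)) at h1
    rw [← hsn_c n, hhv, hhv, Projectivization.smul_mk] at h1
    obtain ⟨k, hk⟩ := (Projectivization.mk_eq_mk_iff' _ _ _ _ _).1 h1
    have hk' : v (sn n) = k • M (v (tn n)) := hk.symm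
    rw [hk', det2_smul_right, det2_smul_left, hM1, hM2]
    ring
  set β : ℝ → ℝ := fun t => det2 (v a) (v t) with hβ
  have hβd : HasDerivAt β (det2 (v a) (deriv v a)) a := by
    have h1 := (hvd a).hasDerivAt
    have h2 := hasDerivAt_fst_comp h1
    have h3 := hasDerivAt_snd_comp h1
    exact (h3.const_mul (v a).1).sub (h2.const_mul (v a).2)
  have hβa : β a = 0 := det2_self _
  set Β : ℝ → ℝ := dslope β a with hΒ
  have hΒ_eq : ∀ s, β s = (s - a) * Β s := by
    intro s
    have := sub_smul_dslope β a s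
    rw [hβa, sub_zero, smul_eq_mul] at this
    exact this.symm
  have hΒ_lim : ContinuousAt Β a := continuousAt_dslope_same.2 hβd.differentiableAt
  have hΒa : Β a = det2 (v a) (deriv v a) := by rw [hΒ, dslope_same, hβd.deriv]
  have hαc : Continuous (fun t => det2 (v t) (v b)) := by
    have h1 := hvd.continuous
    simp only [det2]; fun_prop
  have hml : m = -l := by
    have hrel : ∀ n, rn n * (Β (sn n) * (l * det2 (v (tn n)) (v b))) =
        det2 (v (sn n)) (v b) * (m * Β (tn n)) := by
      intro n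
      have h1 := rel2 n
      change β (sn n) * _ = _ * (m * β (tn n)) at h1
      rw [hΒ_eq, hΒ_eq (tn n)] at h1
      have h3 := htn_ne n
      simp only [hrn]
      field_simp
      linarith
    have hL : Tendsto (fun n => rn n * (Β (sn n) * (l * det2 (v (tn n)) (v b)))) atTop
        (𝓝 ((-1) * (Β a * (l * det2 (v a) (v b))))) :=
      hr_lim.mul ((hΒ_lim.tendsto.comp hsn_lim).mul
        (((hαc.tendsto a).comp htn_lim).const_mul l))
    have hR : Tendsto (fun n => det2 (v (sn n)) (v b) * (m * Β (tn n))) atTop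
        (𝓝 (det2 (v a) (v b) * (m * Β a))) :=
      ((hαc.tendsto a).comp hsn_lim).mul ((hΒ_lim.tendsto.comp htn_lim).const_mul m)
    have heq := tendsto_nhds_unique (hL.congr hrel) hR
    rw [← hΔ, hΒa] at heq
    have hW' := hW a
    have : (det2 (v a) (deriv v a) * Δ) * (m + l) = 0 := by linarith
    rcases mul_eq_zero.1 this with h | h
    · exact absurd h (mul_ne_zero hW' hΔ0)
    · linarith
  have hMM : ∀ w : ℝ × ℝ, M (M w) = (l * l) • w := by
    intro w
    have h1 : Δ • M (M w) = Δ • ((l * l) • w) := by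
      rw [hMw, hM1, hM2, hml, smul_comm, cramer w, smul_add, smul_smul, smul_smul]
      congr 2 <;> ring
    exact smul_right_injective _ hΔ0 h1
  intro x hx
  have hFx : chordMap (frontier K) Q (chordMap (frontier K) P x) ∈ frontier K :=
    chordMap_mem (chordMap_mem hx)
  have h1 := hconj _ hFx
  rw [hconj x hx] at h1
  obtain ⟨t, rfl⟩ : x ∈ range c := hr ▸ hx
  have h2 : M • M • h (c t) = h (c t) := by
    rw [hhv, Projectivization.smul_mk, Projectivization.smul_mk]
    exact (Projectivization.mk_eq_mk_iff' _ _ _ _ _).2 ⟨l * l, (hMM _).symm⟩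
  rw [h2] at h1
  exact hbij.injOn (hr ▸ chordMap_mem (chordMap_mem hFx)) ⟨t, rfl⟩ h1

/-- `F_{γ,P,Q} = σ_Q ∘ σ_P` is conjugate, through a diffeomorphism of the curve onto `ℝP¹`, to a
projective transformation of `ℝP¹`. -/
def ConjMobius (c : ℝ → ℝ × ℝ) (P Q : ℝ × ℝ) : Prop :=
  ∃ (h : ℝ × ℝ → ℙ ℝ (ℝ × ℝ)) (M : (ℝ × ℝ) ≃ₗ[ℝ] (ℝ × ℝ)), IsDiffeoRP1 c h ∧
    ∀ x ∈ Set.range c, h (chordMap (Set.range c) Q (chordMap (Set.range c) P x)) = M • h x

lemma interior_lt {e T y : ℝ × ℝ} (he : e ≠ 0) (hT : ∀ x ∈ K, det2 e x ≤ det2 e T)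
    (hy : y ∈ interior K) : det2 e y < det2 e T := by
  set w : ℝ × ℝ := (-e.2, e.1) with hw
  have hD : 0 < det2 e w := by
    simp only [det2, hw]
    rcases (show e.1 ≠ 0 ∨ e.2 ≠ 0 by
      by_contra hcon
      push Not at hcon
      exact he (Prod.ext hcon.1 hcon.2)) with h1 | h1
    · have : 0 < e.1 * e.1 := mul_self_pos.2 h1
      nlinarith [sq_nonneg e.2]
    · have : 0 < e.2 * e.2 := mul_self_pos.2 h1
      nlinarith [sq_nonneg e.1]
  have hlim : Tendsto (fun ε : ℝ => y + ε • w) (𝓝[>] 0) (𝓝 y) := by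
    have : Tendsto (fun ε : ℝ => y + ε • w) (𝓝 0) (𝓝 (y + (0:ℝ) • w)) := by
      have hc : Continuous (fun ε : ℝ => y + ε • w) := by fun_prop
      exact hc.tendsto 0
    rw [zero_smul, add_zero] at this
    exact this.mono_left nhdsWithin_le_nhds
  obtain ⟨ε, hε1, hε2⟩ := ((hlim.eventually (isOpen_interior.mem_nhds hy)).and
    self_mem_nhdsWithin).exists
  have h1 := hT _ (interior_subset hε1)
  rw [det2_add_right, det2_smul_right] at h1
  have : 0 < ε * det2 e w := mul_pos hε2 hD
  linarith

lemma max_unique (hs : StrictConvex ℝ K) {e T y : ℝ × ℝ} (he : e ≠ 0) (hTK : T ∈ K)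
    (hT : ∀ x ∈ K, det2 e x ≤ det2 e T) (hy : y ∈ K) (hyT : det2 e y = det2 e T) : y = T := by
  by_contra hne
  have h1 := between_interior hs hy hTK hne (r := 1 / 2) (by norm_num) (by norm_num)
  have h2 := interior_lt he hT h1
  rw [det2_add_right, det2_smul_right, det2_sub_right, hyT] at h2
  linarith

lemma min_unique (hs : StrictConvex ℝ K) {e T y : ℝ × ℝ} (he : e ≠ 0) (hTK : T ∈ K)
    (hT : ∀ x ∈ K, det2 e T ≤ det2 e x) (hy : y ∈ K) (hyT : det2 e y = det2 e T) : y = T := by
  refine max_unique hs (e := -e) (neg_ne_zero.2 he) hTK ?_ hy ?_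
  · intro x hx
    have := hT x hx
    simp only [det2, Prod.fst_neg, Prod.snd_neg] at *
    linarith
  · simp only [det2, Prod.fst_neg, Prod.snd_neg] at *
    linarith

lemma interior_gt {e T y : ℝ × ℝ} (he : e ≠ 0) (hT : ∀ x ∈ K, det2 e T ≤ det2 e x)
    (hy : y ∈ interior K) : det2 e T < det2 e y := by
  have := interior_lt (K := K) (e := -e) (T := T) (neg_ne_zero.2 he) (fun x hx => by
    have := hT x hx
    simp only [det2, Prod.fst_neg, Prod.snd_neg] at *
    linarith) hy
  simp only [det2, Prod.fst_neg, Prod.snd_neg] at *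
  linarith

/-- Midpoints of chords parallel to `e = B - A` lie on the segment joining the two points of
support in direction `e`. -/
lemma midpoint_on_diameter (hK : IsCompact K) (hs : StrictConvex ℝ K) (hd : Differentiable ℝ c)
    (hper : Function.Periodic c 1) (hinj : InjOn c (Ico 0 1))
    (hreg : ∀ t, deriv c t ≠ 0) (hr : frontier K = range c)
    (hyp : ∀ P Q : ℝ × ℝ, P ≠ Q → P ∉ range c → Q ∉ range c →
      (∃ x ∈ range c, Collinear ℝ {P, Q, x}) → ConjMobius c P Q)
    {A B : ℝ × ℝ} (hA : A ∈ frontier K) (hB : B ∈ frontier K) (hAB : A ≠ B)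
    {T T' : ℝ × ℝ} (hT : T ∈ frontier K) (hT' : T' ∈ frontier K)
    (hTmax : ∀ x ∈ K, det2 (B - A) x ≤ det2 (B - A) T)
    (hTmin : ∀ x ∈ K, det2 (B - A) T' ≤ det2 (B - A) x) :
    ∃ s : ℝ, 1 < s ∧ T' = T + s • ((A + (1/2 : ℝ) • (B - A)) - T) := by
  set e : ℝ × ℝ := B - A with he
  have he0 : e ≠ 0 := sub_ne_zero.2 hAB.symm
  set M : ℝ × ℝ := A + (1/2 : ℝ) • e with hM
  have hMint : M ∈ interior K := between_interior hs (frontier_sub hK hA) (frontier_sub hK hB) hAB
    (by norm_num) (by norm_num)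
  set qn : ℕ → ℝ := fun n => 1/2 + ((n : ℝ) + 1) with hqn
  have hq1 : ∀ n, 1 < qn n := by
    intro n
    have : (0:ℝ) ≤ n := Nat.cast_nonneg n
    simp only [hqn]; linarith
  set pn : ℕ → ℝ := fun n => qn n / (2 * qn n - 1) with hpn
  have hq2 : ∀ n, 0 < 2 * qn n - 1 := fun n => by have := hq1 n; linarith
  have hp0 : ∀ n, 0 < pn n := fun n => div_pos (by linarith [hq1 n]) (hq2 n)
  have hp1 : ∀ n, pn n < 1 := fun n => by
    simp only [hpn]; rw [div_lt_one (hq2 n)]; linarith [hq1 n]
  have hpq : ∀ n, pn n + qn n = 2 * pn n * qn n := by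
    intro n
    have h1 : pn n * (2 * qn n - 1) = qn n := by
      simp only [hpn]; exact div_mul_cancel₀ _ (hq2 n).ne'
    linarith
  set Pn : ℕ → ℝ × ℝ := fun n => A + pn n • e with hPn
  set Qn : ℕ → ℝ × ℝ := fun n => A + qn n • e with hQn
  have hPint : ∀ n, Pn n ∈ interior K := fun n =>
    between_interior hs (frontier_sub hK hA) (frontier_sub hK hB) hAB (hp0 n) (hp1 n)
  have hPf : ∀ n, Pn n ∉ frontier K := fun n h => not_interior h (hPint n)
  have hQf : ∀ n, Qn n ∉ frontier K := by
    intro n hQ'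
    have hq := hq1 n
    refine no_three hK hs hA hB hQ' hAB ?_ ?_ ?_
    · intro h
      have : qn n • e = 0 := by simpa [hQn] using h.symm
      rcases smul_eq_zero.1 this with h | h
      · linarith
      · exact he0 h
    · intro h
      have : (qn n - 1) • e = 0 := by
        have h' : B - A = Qn n - A := by rw [← h]
        rw [← he] at h'
        simp only [hQn, add_sub_cancel_left] at h'
        rw [sub_smul, one_smul, ← h', sub_self]
      rcases smul_eq_zero.1 this with h | h
      · linarith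
      · exact he0 h
    · simp only [hQn, add_sub_cancel_left]
      rw [← he, det2_smul_right, det2_self]; ring
  have hinv : ∀ n, ∀ x ∈ frontier K, chordMap (frontier K) (Qn n) (chordMap (frontier K) (Pn n)
      (chordMap (frontier K) (Qn n) (chordMap (frontier K) (Pn n) x))) = x := by
    intro n
    have hPQ : Pn n ≠ Qn n := by
      intro h
      have : (qn n - pn n) • e = 0 := by
        simp only [hPn, hQn] at h
        rw [sub_smul, add_left_cancel h, sub_self]
      rcases smul_eq_zero.1 this with h | h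
      · linarith [hp1 n, hq1 n]
      · exact he0 h
    obtain ⟨h, Mb, hh, hconj⟩ := hyp (Pn n) (Qn n) hPQ (hr ▸ hPf n) (hr ▸ hQf n)
      ⟨A, hr ▸ hA, by
        rw [collinear_iff_det2]
        have e1 : Qn n - Pn n = (qn n - pn n) • e := by
          simp only [hPn, hQn]; rw [sub_smul]; abel
        have e2 : A - Pn n = (-pn n) • e := by
          simp only [hPn]; rw [neg_smul]; abel
        rw [e1, e2, det2_smul_left, det2_smul_right, det2_self]; ring⟩
    rw [← hr] at hconj
    exact involution hK hs hd hper hinj hreg hr hA hB hAB (hp0 n) (hp1 n) (hq1 n) (hpq n)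
      rfl rfl hh hconj
  have hninv : Tendsto (fun n : ℕ => 1 / ((n : ℝ) + 1)) atTop (𝓝 0) :=
    tendsto_one_div_add_atTop_nhds_zero_nat
  have hpn_lim : Tendsto pn atTop (𝓝 (1/2)) := by
    have h1 : ∀ n : ℕ, 1/2 + (1/4) * (1 / ((n : ℝ) + 1)) = pn n := by
      intro n
      have h2 : ((n : ℝ) + 1) ≠ 0 := by positivity
      simp only [hpn, hqn]
      have h3 : 2 * (1/2 + ((n : ℝ) + 1)) - 1 = 2 * ((n : ℝ) + 1) := by ring
      rw [h3]
      field_simp
      ring
    have h2 := (hninv.const_mul (1/4)).const_add (1/2)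
    rw [mul_zero, add_zero] at h2
    exact h2.congr h1
  have hPn_lim : Tendsto Pn atTop (𝓝 M) := tendsto_const_nhds.add (hpn_lim.smul_const e)
  have hQn_lim : ∀ (w : ℕ → ℝ × ℝ) (w0 : ℝ × ℝ), Tendsto w atTop (𝓝 w0) →
      Tendsto (fun n : ℕ => (1 / ((n : ℝ) + 1)) • (Qn n - w n)) atTop (𝓝 e) := by
    intro w w0 hw
    have h1 : ∀ n : ℕ, e + (1 / ((n : ℝ) + 1)) • (M - w n) = (1 / ((n : ℝ) + 1)) • (Qn n - w n) := by
      intro n
      have h2 : ((n : ℝ) + 1) ≠ 0 := by positivity
      have h3 : Qn n - w n = ((n : ℝ) + 1) • e + (M - w n) := by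
        simp only [hQn, hqn, hM]; rw [add_smul]; abel
      rw [h3, smul_add, smul_smul, one_div, inv_mul_cancel₀ h2, one_smul]
    have h2 := (hninv.smul (tendsto_const_nhds (x := M) |>.sub hw)).const_add e
    rw [zero_smul, add_zero] at h2
    exact h2.congr h1
  -- u_n → T
  set un : ℕ → ℝ × ℝ := fun n => chordMap (frontier K) (Qn n) T with hun
  have hunf : ∀ n, un n ∈ frontier K := fun n => chordMap_mem hT
  have hfc : IsCompact (frontier K) := hK.of_isClosed_subset isClosed_frontier (frontier_sub hK)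
  have hun_lim : Tendsto un atTop (𝓝 T) := by
    refine tendsto_of_subseq_tendsto fun ns hns => ?_
    obtain ⟨u, hu, φ, hφ, hl⟩ := hfc.tendsto_subseq (x := fun n => un (ns n)) (fun n => hunf _)
    refine ⟨φ, ?_⟩
    have h1 : ∀ n : ℕ, det2 ((1 / ((n : ℝ) + 1)) • (Qn n - T)) (un n - T) = 0 := by
      intro n
      have h2 := chordMap_det (frontier K) (Qn n) T
      have h3 : det2 (Qn n - T) (un n - T) = - det2 (T - Qn n) (un n - Qn n) := by
        simp only [det2, Prod.fst_sub, Prod.snd_sub]; ring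
      rw [det2_smul_left, h3, h2, neg_zero, mul_zero]
    have h2 := (hQn_lim (fun _ => T) T tendsto_const_nhds).comp (hns.comp hφ.tendsto_atTop)
    have h3 := hl.sub_const T
    have hdc : Continuous (fun z : (ℝ × ℝ) × (ℝ × ℝ) => det2 z.1 z.2) := by
      simp only [det2]; fun_prop
    have h4 := (hdc.tendsto (e, u - T)).comp (h2.prodMk_nhds h3)
    have h5 : det2 e (u - T) = 0 := by
      refine tendsto_nhds_unique (h4.congr fun n => ?_) tendsto_const_nhds
      exact h1 _
    rw [det2_sub_right, sub_eq_zero] at h5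
    have h6 : u = T := max_unique hs he0 (frontier_sub hK hT) hTmax (frontier_sub hK hu) h5
    rw [← h6]
    exact hl
  -- the exit point Z
  obtain ⟨s, hs1, hZf⟩ := exists_opp hK hMint hT
  set Z : ℝ × ℝ := T + s • (M - T) with hZ
  set wn : ℕ → ℝ × ℝ := fun n => chordMap (frontier K) (Pn n) T with hwn
  have hwnf : ∀ n, wn n ∈ frontier K := fun n => chordMap_mem hT
  set zn : ℕ → ℝ × ℝ := fun n => chordMap (frontier K) (Pn n) (un n) with hzn
  have hznf : ∀ n, zn n ∈ frontier K := fun n => chordMap_mem (hunf n)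
  have hwn_lim : Tendsto wn atTop (𝓝 Z) := by
    have hex : ∀ n, ∃ s : ℝ, 1 < s ∧ wn n = T + s • (Pn n - T) := fun n =>
      chordMap_interior hK hs hT (hPf n) (hPint n) (by rw [sub_self]; simp [det2])
    choose sn hsn1 hsn2 using hex
    exact opp_tendsto hK hs (p := M) (y := T) (z := Z) (pn := Pn) (yn := fun _ => T)
      (τn := fun n => (sn n)⁻¹) hMint hT hZf ⟨s, by linarith, rfl⟩ hPn_lim tendsto_const_nhds
      (Eventually.of_forall hwnf) (Eventually.of_forall fun n => conv_of_exit (hsn1 n) (hsn2 n))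
  have hzn_lim : Tendsto zn atTop (𝓝 Z) := by
    have hex : ∀ n, ∃ s : ℝ, 1 < s ∧ zn n = un n + s • (Pn n - un n) := fun n =>
      chordMap_interior hK hs (hunf n) (hPf n) (hPint n) (by rw [sub_self]; simp [det2])
    choose sn hsn1 hsn2 using hex
    exact opp_tendsto hK hs (p := M) (y := T) (z := Z) (pn := Pn) (yn := un)
      (τn := fun n => (sn n)⁻¹) hMint hT hZf ⟨s, by linarith, rfl⟩ hPn_lim hun_lim
      (Eventually.of_forall hznf) (Eventually.of_forall fun n => conv_of_exit (hsn1 n) (hsn2 n))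
  have hrel : ∀ n, chordMap (frontier K) (Qn n) (wn n) = zn n := by
    intro n
    have h1 := hinv n (wn n) (hwnf n)
    have h2 : chordMap (frontier K) (Pn n) (wn n) = T := chordMap_invol hK hs hT (hPf n)
    rw [h2] at h1
    change chordMap (frontier K) (Qn n) (zn n) = wn n at h1
    rw [← h1]
    exact chordMap_invol hK hs (hznf n) (hQf n)
  have hTK := frontier_sub hK hT
  have hT'K := frontier_sub hK hT'
  have hZK := frontier_sub hK hZf
  have hlt1 := interior_lt he0 hTmax hMint
  have hlt2 := interior_gt he0 hTmin hMint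
  have hMT : M - T ≠ 0 := by
    intro h
    rw [sub_eq_zero] at h
    exact not_interior hT (h ▸ hMint)
  -- Z is a point of support
  have hZext : det2 e Z = det2 e T ∨ det2 e Z = det2 e T' := by
    by_contra hcon
    push Not at hcon
    have hZ1 : det2 e Z < det2 e T := lt_of_le_of_ne (hTmax Z hZK) hcon.1
    have hZ2 : det2 e T' < det2 e Z := lt_of_le_of_ne (hTmin Z hZK) (Ne.symm hcon.2)
    have hden : 0 < det2 e T - det2 e T' := by linarith
    set θ : ℝ := (det2 e Z - det2 e T') / (det2 e T - det2 e T') with hθ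
    set m0 : ℝ × ℝ := T' + θ • (T - T') with hm0
    have hTT' : T' ≠ T := by
      intro h; rw [h] at hden; linarith
    have hm0int : m0 ∈ interior K := between_interior hs hT'K hTK hTT'
      (div_pos (by linarith) hden) (by rw [hθ, div_lt_one hden]; linarith)
    have hm0Z : det2 e (m0 - Z) = 0 := by
      rw [hm0, det2_sub_right, det2_add_right, det2_smul_right, det2_sub_right, hθ,
        div_mul_cancel₀ _ hden.ne']
      ring
    obtain ⟨τ, hτ⟩ := exists_smul_of_det2 he0 hm0Z
    set mn : ℕ → ℝ × ℝ := fun n => wn n + τ • ((1 / ((n : ℝ) + 1)) • (Qn n - wn n)) with hmn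
    have hmn_lim : Tendsto mn atTop (𝓝 m0) := by
      have h1 := hwn_lim.add ((hQn_lim wn Z hwn_lim).const_smul τ)
      rw [← hτ, add_sub_cancel] at h1
      exact h1
    have hmn_int : ∀ᶠ n in atTop, mn n ∈ interior K :=
      hmn_lim.eventually (isOpen_interior.mem_nhds hm0int)
    have hex : ∀ n, ∃ s : ℝ, mn n ∈ interior K → (1 < s ∧ zn n = wn n + s • (mn n - wn n)) := by
      intro n
      by_cases hn : mn n ∈ interior K
      · obtain ⟨s, h1, h2⟩ := chordMap_interior hK hs (hwnf n) (hQf n) hn (by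
          have : mn n - Qn n = (1 - τ * (1 / ((n : ℝ) + 1))) • (wn n - Qn n) := by
            simp only [hmn]; ext <;> simp <;> ring
          rw [this, det2_smul_right, det2_self, mul_zero])
        rw [hrel] at h2
        exact ⟨s, fun _ => ⟨h1, h2⟩⟩
      · exact ⟨0, fun h => absurd h hn⟩
    choose sn hsn using hex
    have hmn_lim2 : Tendsto mn atTop (𝓝 Z) := by
      have hdiff : Tendsto (fun n => zn n - wn n) atTop (𝓝 0) := by
        have := hzn_lim.sub hwn_lim
        rwa [sub_self] at this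
      have hbd : Tendsto (fun n => mn n - wn n) atTop (𝓝 0) := by
        rw [tendsto_zero_iff_norm_tendsto_zero] at hdiff ⊢
        refine squeeze_zero' (Eventually.of_forall fun n => norm_nonneg _) ?_ hdiff
        filter_upwards [hmn_int] with n hn
        obtain ⟨h1, h2⟩ := hsn n hn
        obtain ⟨h3, h4⟩ := conv_of_exit h1 h2
        have h5 : mn n - wn n = (sn n)⁻¹ • (zn n - wn n) := by
          rw [sub_eq_iff_eq_add, add_comm]; exact h4
        rw [h5, norm_smul, Real.norm_of_nonneg h3.1]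
        exact mul_le_of_le_one_left (norm_nonneg _) h3.2
      have := hwn_lim.add hbd
      rw [add_zero] at this
      refine this.congr fun n => ?_
      abel
    have : m0 = Z := tendsto_nhds_unique hmn_lim hmn_lim2
    exact not_interior hZf (this ▸ hm0int)
  rcases hZext with h | h
  · exfalso
    have h1 : Z = T := max_unique hs he0 hTK hTmax hZK h
    have h2 : s • (M - T) = 0 := by
      have : T + s • (M - T) = T := h1
      simpa using this
    rcases smul_eq_zero.1 h2 with h | h
    · linarith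
    · exact hMT h
  · have h1 : Z = T' := min_unique hs he0 hT'K hTmin hZK h
    exact ⟨s, hs1, h1.symm⟩

end Main

section Reflection

open MeasureTheory

/-- The linear reflection fixing `a` and reversing `e`. -/
def reflLin (e a : ℝ × ℝ) : (ℝ × ℝ) →ₗ[ℝ] (ℝ × ℝ) where
  toFun x := x - (2 * det2 x a / det2 e a) • e
  map_add' x y := by
    ext
    · simp only [det2, Prod.fst_add, Prod.snd_add, Prod.fst_sub, Prod.smul_fst, smul_eq_mul]
      ring
    · simp only [det2, Prod.fst_add, Prod.snd_add, Prod.snd_sub, Prod.smul_snd, smul_eq_mul]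
      ring
  map_smul' r x := by
    ext
    · simp only [det2, Prod.fst_sub, Prod.smul_fst, Prod.smul_snd, smul_eq_mul, RingHom.id_apply]
      ring
    · simp only [det2, Prod.snd_sub, Prod.smul_fst, Prod.smul_snd, smul_eq_mul, RingHom.id_apply]
      ring

lemma reflLin_apply (e a x : ℝ × ℝ) : reflLin e a x = x - (2 * det2 x a / det2 e a) • e := rfl

lemma reflLin_invol {e a : ℝ × ℝ} (h : det2 e a ≠ 0) (x : ℝ × ℝ) :
    reflLin e a (reflLin e a x) = x := by
  have h1 : det2 (reflLin e a x) a = - det2 x a := by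
    rw [reflLin_apply, det2_sub_left, det2_smul_left, div_mul_cancel₀ _ h]; ring
  rw [reflLin_apply e a (reflLin e a x), h1, reflLin_apply]
  have : 2 * -det2 x a / det2 e a = -(2 * det2 x a / det2 e a) := by ring
  rw [this, neg_smul]; abel

/-- The affine reflection with axis the line through `T` in direction `a`, reversing `e`. -/
def refl (e a T x : ℝ × ℝ) : ℝ × ℝ := x - (2 * det2 (x - T) a / det2 e a) • e

lemma refl_eq (e a T x : ℝ × ℝ) :
    refl e a T x = reflLin e a x + (2 * det2 T a / det2 e a) • e := by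
  rw [refl, reflLin_apply, det2_sub_left]
  ext
  · simp only [Prod.fst_sub, Prod.fst_add, Prod.smul_fst, smul_eq_mul]; ring
  · simp only [Prod.snd_sub, Prod.snd_add, Prod.smul_snd, smul_eq_mul]; ring

lemma refl_invol {e a : ℝ × ℝ} (h : det2 e a ≠ 0) (T x : ℝ × ℝ) :
    refl e a T (refl e a T x) = x := by
  have h1 : det2 (refl e a T x - T) a = - det2 (x - T) a := by
    have : refl e a T x - T = (x - T) - (2 * det2 (x - T) a / det2 e a) • e := by
      rw [refl]; abel
    rw [this, det2_sub_left, det2_smul_left, div_mul_cancel₀ _ h]; ring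
  have h2 : refl e a T (refl e a T x) = refl e a T x -
      (2 * det2 (refl e a T x - T) a / det2 e a) • e := rfl
  rw [h2, h1, refl]
  have : 2 * -det2 (x - T) a / det2 e a = -(2 * det2 (x - T) a / det2 e a) := by ring
  rw [this, neg_smul]; abel

lemma continuous_refl (e a T : ℝ × ℝ) : Continuous (refl e a T) := by
  unfold refl det2
  fun_prop

def reflHomeo {e a : ℝ × ℝ} (h : det2 e a ≠ 0) (T : ℝ × ℝ) : (ℝ × ℝ) ≃ₜ (ℝ × ℝ) where
  toFun := refl e a T
  invFun := refl e a T
  left_inv := refl_invol h T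
  right_inv := refl_invol h T
  continuous_toFun := continuous_refl e a T
  continuous_invFun := continuous_refl e a T

lemma measurePreserving_refl {e a : ℝ × ℝ} (h : det2 e a ≠ 0) (T : ℝ × ℝ) :
    MeasurePreserving (refl e a T) volume volume := by
  have hdet : LinearMap.det (reflLin e a) * LinearMap.det (reflLin e a) = 1 := by
    rw [← LinearMap.det_comp]
    have : reflLin e a ∘ₗ reflLin e a = LinearMap.id := by
      apply LinearMap.ext
      intro x
      exact reflLin_invol h x
    rw [this, LinearMap.det_id]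
  have hne : LinearMap.det (reflLin e a) ≠ 0 := by
    intro h0; rw [h0] at hdet; simp at hdet
  have habs : |(LinearMap.det (reflLin e a))⁻¹| = 1 := by
    rcases mul_self_eq_one_iff.1 hdet with h1 | h1 <;> rw [h1] <;> norm_num
  have hL : MeasurePreserving (reflLin e a) (volume : Measure (ℝ × ℝ)) volume := by
    refine ⟨(LinearMap.continuous_of_finiteDimensional _).measurable, ?_⟩
    rw [Measure.map_linearMap_addHaar_eq_smul_addHaar _ hne, habs]
    simp
  have hS := (measurePreserving_add_right (volume : Measure (ℝ × ℝ))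
    ((2 * det2 T a / det2 e a) • e)).comp hL
  have : refl e a T = (fun x => x + (2 * det2 T a / det2 e a) • e) ∘ (reflLin e a) := by
    ext x : 1
    exact refl_eq e a T x
  rw [this]
  exact hS

variable {K : Set (ℝ × ℝ)}

lemma setIntegral_refl {e a : ℝ × ℝ} (h : det2 e a ≠ 0) {T : ℝ × ℝ}
    (hSK : ∀ x ∈ K, refl e a T x ∈ K) (F : ℝ × ℝ → ℝ) :
    ∫ x in K, F (refl e a T x) = ∫ x in K, F x := by
  have hpre : refl e a T ⁻¹' K = K := by
    ext x
    constructor
    · intro hx
      have := hSK _ hx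
      rwa [refl_invol h] at this
    · exact hSK x
  have := (measurePreserving_refl h T).setIntegral_preimage_emb
    (reflHomeo h T).measurableEmbedding F K
  rwa [hpre] at this

/-- odd functions under the reflection have integral zero -/
lemma setIntegral_refl_odd {e a : ℝ × ℝ} (h : det2 e a ≠ 0) {T : ℝ × ℝ}
    (hSK : ∀ x ∈ K, refl e a T x ∈ K) (F : ℝ × ℝ → ℝ)
    (hodd : ∀ x, F (refl e a T x) = - F x) : ∫ x in K, F x = 0 := by
  have h1 := setIntegral_refl h hSK F
  simp only [hodd, integral_neg] at h1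
  linarith

end Reflection

section Inertia

open MeasureTheory

variable {K : Set (ℝ × ℝ)}

lemma integrable_of_cont (hK : IsCompact K) {F : ℝ × ℝ → ℝ} (hF : Continuous F) :
    IntegrableOn F K := hF.continuousOn.integrableOn_compact hK

/-- the centroid of `K` -/
def centroid (K : Set (ℝ × ℝ)) : ℝ × ℝ :=
  ((∫ x in K, x.1) / (volume K).toReal, (∫ x in K, x.2) / (volume K).toReal)

/-- the inertia form of `K` -/
def inertia (K : Set (ℝ × ℝ)) (u w : ℝ × ℝ) : ℝ :=
  u.1 * w.1 * (∫ x in K, (x.2 - (centroid K).2) ^ 2)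
    - (u.1 * w.2 + u.2 * w.1) * (∫ x in K, (x.1 - (centroid K).1) * (x.2 - (centroid K).2))
    + u.2 * w.2 * (∫ x in K, (x.1 - (centroid K).1) ^ 2)

lemma vol_pos (hint : (interior K).Nonempty) (hK : IsCompact K) : 0 < (volume K).toReal := by
  apply ENNReal.toReal_pos
  · exact (lt_of_lt_of_le (isOpen_interior.measure_pos volume hint)
      (measure_mono interior_subset)).ne'
  · exact hK.measure_lt_top.ne

lemma inertia_eq (hK : IsCompact K) (u w : ℝ × ℝ) :
    inertia K u w = ∫ x in K, det2 u (x - centroid K) * det2 w (x - centroid K) := by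
  set C := centroid K with hC
  have i1 : IntegrableOn (fun x : ℝ × ℝ => (x.2 - C.2) ^ 2) K := integrable_of_cont hK (by fun_prop)
  have i2 : IntegrableOn (fun x : ℝ × ℝ => (x.1 - C.1) * (x.2 - C.2)) K :=
    integrable_of_cont hK (by fun_prop)
  have i3 : IntegrableOn (fun x : ℝ × ℝ => (x.1 - C.1) ^ 2) K := integrable_of_cont hK (by fun_prop)
  have heq : (fun x : ℝ × ℝ => det2 u (x - C) * det2 w (x - C)) = fun x =>
      (u.1 * w.1) * (x.2 - C.2) ^ 2 - (u.1 * w.2 + u.2 * w.1) * ((x.1 - C.1) * (x.2 - C.2))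
        + (u.2 * w.2) * (x.1 - C.1) ^ 2 := by
    ext x
    simp only [det2, Prod.fst_sub, Prod.snd_sub]; ring
  have j1 : IntegrableOn (fun x : ℝ × ℝ => (u.1 * w.1) * (x.2 - C.2) ^ 2) K := i1.const_mul _
  have j2 : IntegrableOn (fun x : ℝ × ℝ =>
    (u.1 * w.2 + u.2 * w.1) * ((x.1 - C.1) * (x.2 - C.2))) K := i2.const_mul _
  have j3 : IntegrableOn (fun x : ℝ × ℝ => (u.2 * w.2) * (x.1 - C.1) ^ 2) K := i3.const_mul _
  have j12 : IntegrableOn (fun x : ℝ × ℝ => (u.1 * w.1) * (x.2 - C.2) ^ 2 -
    (u.1 * w.2 + u.2 * w.1) * ((x.1 - C.1) * (x.2 - C.2))) K := j1.sub j2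
  rw [heq, integral_add j12 j3, integral_sub j1 j2, integral_const_mul, integral_const_mul,
    integral_const_mul]
  rfl

lemma inertia_pos (hK : IsCompact K) (hint : (interior K).Nonempty) {u : ℝ × ℝ} (hu : u ≠ 0) :
    0 < inertia K u u := by
  rw [inertia_eq hK]
  set C := centroid K with hC
  have hcont : Continuous (fun x : ℝ × ℝ => det2 u (x - C) * det2 u (x - C)) := by
    simp only [det2, Prod.fst_sub, Prod.snd_sub]; fun_prop
  rw [setIntegral_pos_iff_support_of_nonneg_ae
    (Eventually.of_forall fun x => mul_self_nonneg _) (integrable_of_cont hK hcont)]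
  have hopen : IsOpen (Function.support (fun x : ℝ × ℝ => det2 u (x - C) * det2 u (x - C)) ∩
      interior K) := hcont.isOpen_support.inter isOpen_interior
  refine lt_of_lt_of_le (hopen.measure_pos volume ?_)
    (measure_mono (inter_subset_inter_right _ interior_subset))
  by_contra hne
  rw [not_nonempty_iff_eq_empty] at hne
  have hz : ∀ x ∈ interior K, det2 u (x - C) = 0 := by
    intro x hx
    by_contra h
    have : x ∈ (∅ : Set (ℝ × ℝ)) := by
      rw [← hne]
      exact ⟨mul_ne_zero h h, hx⟩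
    exact this
  obtain ⟨y, hy⟩ := hint
  have hmax : ∀ x ∈ interior K, det2 u x ≤ det2 u y := by
    intro x hx
    have h1 := hz x hx
    have h2 := hz y hy
    rw [det2_sub_right] at h1 h2
    linarith
  have := interior_lt (K := interior K) hu hmax (by rw [interior_interior]; exact hy)
  exact lt_irrefl _ this

lemma det2_centroid (hK : IsCompact K) (hint : (interior K).Nonempty) (T a : ℝ × ℝ)
    (h0 : ∫ x in K, det2 (x - T) a = 0) : det2 (centroid K - T) a = 0 := by
  have hV := vol_pos hint hK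
  have i1 : IntegrableOn (fun x : ℝ × ℝ => x.1) K := integrable_of_cont hK (by fun_prop)
  have i2 : IntegrableOn (fun x : ℝ × ℝ => x.2) K := integrable_of_cont hK (by fun_prop)
  have i3 : IntegrableOn (fun _ : ℝ × ℝ => T.1 * a.2 - T.2 * a.1) K :=
    integrable_of_cont hK (by fun_prop)
  have heq : (fun x : ℝ × ℝ => det2 (x - T) a) = fun x =>
      a.2 * x.1 - a.1 * x.2 - (T.1 * a.2 - T.2 * a.1) := by
    ext x
    simp only [det2, Prod.fst_sub, Prod.snd_sub]; ring
  have j1 : IntegrableOn (fun x : ℝ × ℝ => a.2 * x.1) K := i1.const_mul _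
  have j2 : IntegrableOn (fun x : ℝ × ℝ => a.1 * x.2) K := i2.const_mul _
  have j12 : IntegrableOn (fun x : ℝ × ℝ => a.2 * x.1 - a.1 * x.2) K := j1.sub j2
  rw [heq, integral_sub j12 i3, integral_sub j1 j2, integral_const_mul,
    integral_const_mul, setIntegral_const] at h0
  simp only [det2, Prod.fst_sub, Prod.snd_sub, centroid]
  have hV' := hV.ne'
  field_simp
  simp only [smul_eq_mul, Measure.real] at h0
  linarith

end Inertia

section Final

variable {K : Set (ℝ × ℝ)}

lemma exit_ray (hK : IsCompact K) {y u : ℝ × ℝ} (hy : y ∈ K) (hu : u ≠ 0) :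
    ∃ s : ℝ, 0 ≤ s ∧ y + s • u ∈ frontier K := by
  set f : ℝ → ℝ × ℝ := fun s => y + s • u with hf
  have hfc : Continuous f := by fun_prop
  obtain ⟨C, hC⟩ := hK.isBounded.exists_norm_le
  have hcomp : IsCompact (f ⁻¹' K ∩ Icc 0 (2 * C / ‖u‖)) :=
    (isCompact_Icc).inter_left (hK.isClosed.preimage hfc)
  have hbd : ∀ s, 0 ≤ s → f s ∈ K → s ≤ 2 * C / ‖u‖ := by
    intro s hs hsK
    rw [le_div_iff₀ (norm_pos_iff.2 hu)]
    have h1 := hC _ hsK
    have h2 := hC _ hy
    have h3 : s * ‖u‖ = ‖f s - y‖ := by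
      rw [hf]; simp only [add_sub_cancel_left]; rw [norm_smul, Real.norm_of_nonneg hs]
    rw [h3]
    calc ‖f s - y‖ ≤ ‖f s‖ + ‖y‖ := norm_sub_le _ _
      _ ≤ 2 * C := by linarith
  have hf0 : f 0 = y := by simp [hf]
  have h0mem : (0:ℝ) ∈ f ⁻¹' K ∩ Icc 0 (2 * C / ‖u‖) := by
    have : f 0 ∈ K := by rw [hf0]; exact hy
    exact ⟨this, le_refl _, hbd 0 le_rfl this⟩
  obtain ⟨s, hs, hmax⟩ := hcomp.exists_isGreatest ⟨0, h0mem⟩
  have hs0 : 0 ≤ s := hs.2.1
  have hfs : f s ∉ interior K := by
    intro hint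
    have : f ⁻¹' (interior K) ∈ 𝓝 s := hfc.continuousAt.preimage_mem_nhds
      (isOpen_interior.mem_nhds hint)
    obtain ⟨ε, hε, hball⟩ := Metric.mem_nhds_iff.1 this
    have h2 : f (s + ε / 2) ∈ interior K := hball (by
      rw [Metric.mem_ball, Real.dist_eq, add_sub_cancel_left, abs_of_pos (by positivity)]
      linarith)
    have h2' : f (s + ε / 2) ∈ K := interior_subset h2
    have h3 : s + ε / 2 ∈ f ⁻¹' K ∩ Icc 0 (2 * C / ‖u‖) :=
      ⟨h2', by linarith, hbd _ (by linarith) h2'⟩
    have := hmax h3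
    linarith
  exact ⟨s, hs0, mem_frontier_of hs.1 hfs⟩

lemma support_points (hK : IsCompact K) (hne : (interior K).Nonempty) {e : ℝ × ℝ} (he : e ≠ 0) :
    ∃ T ∈ frontier K, ∃ T' ∈ frontier K, (∀ x ∈ K, det2 e x ≤ det2 e T) ∧
      (∀ x ∈ K, det2 e T' ≤ det2 e x) := by
  have hc : ContinuousOn (fun x => det2 e x) K := by
    simp only [det2]; fun_prop
  have hKne : K.Nonempty := hne.mono interior_subset
  obtain ⟨T, hT, hTm⟩ := hK.exists_isMaxOn hKne hc
  obtain ⟨T', hT', hTm'⟩ := hK.exists_isMinOn hKne hc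
  refine ⟨T, mem_frontier_of hT ?_, T', mem_frontier_of hT' ?_, hTm, hTm'⟩
  · intro h
    exact lt_irrefl _ (interior_lt he hTm h)
  · intro h
    exact lt_irrefl _ (interior_gt he hTm' h)

/-- The diametral property: midpoints of chords parallel to `B - A` lie on the segment joining
the two support points. -/
def Dia (K : Set (ℝ × ℝ)) : Prop :=
  ∀ A ∈ frontier K, ∀ B ∈ frontier K, A ≠ B → ∀ T ∈ frontier K, ∀ T' ∈ frontier K,
    (∀ x ∈ K, det2 (B - A) x ≤ det2 (B - A) T) → (∀ x ∈ K, det2 (B - A) T' ≤ det2 (B - A) x) →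
    ∃ s : ℝ, 1 < s ∧ T' = T + s • ((A + (1/2 : ℝ) • (B - A)) - T)

lemma refl_mem_frontier (hK : IsCompact K) (hs : StrictConvex ℝ K) (hdia : Dia K)
    {e T T' : ℝ × ℝ} (he : e ≠ 0) (hT : T ∈ frontier K) (hT' : T' ∈ frontier K)
    (hTmax : ∀ x ∈ K, det2 e x ≤ det2 e T) (hTmin : ∀ x ∈ K, det2 e T' ≤ det2 e x)
    (hδ : det2 e (T' - T) ≠ 0)
    {x : ℝ × ℝ} (hx : x ∈ frontier K) : refl e (T' - T) T x ∈ frontier K := by
  have hTK := frontier_sub hK hT
  have hT'K := frontier_sub hK hT'
  have hxK := frontier_sub hK hx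
  by_cases hxT : det2 e x = det2 e T
  · have : x = T := max_unique hs he hTK hTmax hxK hxT
    rw [this, refl, sub_self]
    simpa [det2] using hT
  by_cases hxT' : det2 e x = det2 e T'
  · have : x = T' := min_unique hs he hT'K hTmin hxK hxT'
    rw [this, refl, det2_self]
    simpa using hT'
  have hZ1 : det2 e x < det2 e T := lt_of_le_of_ne (hTmax x hxK) hxT
  have hZ2 : det2 e T' < det2 e x := lt_of_le_of_ne (hTmin x hxK) (Ne.symm hxT')
  have hden : 0 < det2 e T - det2 e T' := by linarith
  set θ : ℝ := (det2 e x - det2 e T') / (det2 e T - det2 e T') with hθ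
  set m0 : ℝ × ℝ := T' + θ • (T - T') with hm0
  have hTT' : T' ≠ T := by
    intro h; rw [h] at hden; linarith
  have hm0int : m0 ∈ interior K := between_interior hs hT'K hTK hTT'
    (div_pos (by linarith) hden) (by rw [hθ, div_lt_one hden]; linarith)
  have hm0Z : det2 e (m0 - x) = 0 := by
    rw [hm0, det2_sub_right, det2_add_right, det2_smul_right, det2_sub_right, hθ,
      div_mul_cancel₀ _ hden.ne']
    ring
  obtain ⟨τ, hτ⟩ := exists_smul_of_det2 he hm0Z
  have hτ0 : τ ≠ 0 := by
    rintro rfl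
    rw [zero_smul, sub_eq_zero] at hτ
    exact not_interior hx (hτ ▸ hm0int)
  obtain ⟨s, hs1, hyf⟩ := exists_opp hK hm0int hx
  rw [hτ, smul_smul] at hyf
  set κ : ℝ := s * τ with hκ
  have hκ0 : κ ≠ 0 := mul_ne_zero (by linarith) hτ0
  have hyx : x + κ • e ≠ x := by
    intro h
    have : κ • e = 0 := by simpa using h
    rcases smul_eq_zero.1 this with h | h
    · exact hκ0 h
    · exact he h
  have hmid : det2 ((x + (κ / 2) • e) - T) (T' - T) = 0 := by
    rcases lt_or_gt_of_ne hκ0 with hneg | hpos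
    · obtain ⟨s', hs', hT's⟩ := hdia _ hyf x hx hyx T hT T' hT' (by
        intro z hz
        have h1 : x - (x + κ • e) = (-κ) • e := by rw [neg_smul]; abel
        rw [h1, det2_smul_left, det2_smul_left]
        exact mul_le_mul_of_nonneg_left (hTmax z hz) (by linarith)) (by
        intro z hz
        have h1 : x - (x + κ • e) = (-κ) • e := by rw [neg_smul]; abel
        rw [h1, det2_smul_left, det2_smul_left]
        exact mul_le_mul_of_nonneg_left (hTmin z hz) (by linarith))
      have h2 : x + κ • e + (1 / 2 : ℝ) • (x - (x + κ • e)) = x + (κ / 2) • e := by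
        ext
        · simp only [Prod.fst_add, Prod.fst_sub, Prod.smul_fst, smul_eq_mul]; ring
        · simp only [Prod.snd_add, Prod.snd_sub, Prod.smul_snd, smul_eq_mul]; ring
      rw [h2] at hT's
      have h3 : T' - T = s' • (x + (κ / 2) • e - T) := by
        rw [sub_eq_iff_eq_add, add_comm]; exact hT's
      rw [h3, det2_smul_right, det2_self, mul_zero]
    · obtain ⟨s', hs', hT's⟩ := hdia x hx _ hyf hyx.symm T hT T' hT' (by
        intro z hz
        have h1 : (x + κ • e) - x = κ • e := by abel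
        rw [h1, det2_smul_left, det2_smul_left]
        exact mul_le_mul_of_nonneg_left (hTmax z hz) (by linarith)) (by
        intro z hz
        have h1 : (x + κ • e) - x = κ • e := by abel
        rw [h1, det2_smul_left, det2_smul_left]
        exact mul_le_mul_of_nonneg_left (hTmin z hz) (by linarith))
      have h2 : x + (1 / 2 : ℝ) • ((x + κ • e) - x) = x + (κ / 2) • e := by
        ext
        · simp only [Prod.fst_add, Prod.fst_sub, Prod.smul_fst, smul_eq_mul]; ring
        · simp only [Prod.snd_add, Prod.snd_sub, Prod.smul_snd, smul_eq_mul]; ring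
      rw [h2] at hT's
      have h3 : T' - T = s' • (x + (κ / 2) • e - T) := by
        rw [sub_eq_iff_eq_add, add_comm]; exact hT's
      rw [h3, det2_smul_right, det2_self, mul_zero]
  have h4 : det2 (x - T) (T' - T) = -(κ / 2) * det2 e (T' - T) := by
    have : (x + (κ / 2) • e) - T = (x - T) + (κ / 2) • e := by abel
    rw [this, det2_add_left, det2_smul_left] at hmid
    linarith
  have h5 : refl e (T' - T) T x = x + κ • e := by
    rw [refl, h4]
    have : 2 * (-(κ / 2) * det2 e (T' - T)) / det2 e (T' - T) = -κ := by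
      field_simp
    rw [this, neg_smul]; abel
  rw [h5]
  exact hyf

lemma support_ne (hne : (interior K).Nonempty) {e T T' : ℝ × ℝ} (he : e ≠ 0)
    (hTmax : ∀ x ∈ K, det2 e x ≤ det2 e T) (hTmin : ∀ x ∈ K, det2 e T' ≤ det2 e x) :
    det2 e (T' - T) ≠ 0 := by
  obtain ⟨y, hy⟩ := hne
  have h1 := interior_lt he hTmax hy
  have h2 := interior_gt he hTmin hy
  rw [det2_sub_right]
  linarith

lemma refl_mem (hK : IsCompact K) (hs : StrictConvex ℝ K) (hdia : Dia K)
    {e T T' : ℝ × ℝ} (he : e ≠ 0) (hT : T ∈ frontier K) (hT' : T' ∈ frontier K)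
    (hTmax : ∀ x ∈ K, det2 e x ≤ det2 e T) (hTmin : ∀ x ∈ K, det2 e T' ≤ det2 e x)
    (hδ : det2 e (T' - T) ≠ 0)
    {x : ℝ × ℝ} (hx : x ∈ K) : refl e (T' - T) T x ∈ K := by
  by_cases hxi : x ∈ interior K
  · obtain ⟨s, hs1, hZ⟩ := exists_opp hK hxi hT
    set Z := T + s • (x - T) with hZdef
    have h1 := refl_mem_frontier hK hs hdia he hT hT' hTmax hTmin hδ hZ
    have hs0 : s ≠ 0 := by linarith
    have h2 : refl e (T' - T) T x = T + s⁻¹ • (refl e (T' - T) T Z - T) := by
      have e1 : det2 (Z - T) (T' - T) = s * det2 (x - T) (T' - T) := by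
        rw [hZdef, add_sub_cancel_left, det2_smul_left]
      rw [refl, refl, e1, hZdef]
      ext
      · simp only [Prod.fst_add, Prod.fst_sub, Prod.smul_fst, smul_eq_mul]
        field_simp
        ring
      · simp only [Prod.snd_add, Prod.snd_sub, Prod.smul_snd, smul_eq_mul]
        field_simp
        ring
    rw [h2]
    have h3 := hs.convex (frontier_sub hK hT) (frontier_sub hK h1)
      (show 0 ≤ 1 - s⁻¹ by
        have := inv_le_one_of_one_le₀ hs1.le
        linarith) (show 0 ≤ s⁻¹ by positivity) (by ring)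
    convert h3 using 1
    ext
    · simp only [Prod.fst_add, Prod.fst_sub, Prod.smul_fst, smul_eq_mul]; ring
    · simp only [Prod.snd_add, Prod.snd_sub, Prod.smul_snd, smul_eq_mul]; ring
  · exact frontier_sub hK (refl_mem_frontier hK hs hdia he hT hT' hTmax hTmin hδ
      (mem_frontier_of hx hxi))

/-- summary of the reflection symmetry in direction `e` -/
lemma reflection_data (hK : IsCompact K) (hs : StrictConvex ℝ K) (hne : (interior K).Nonempty)
    (hdia : Dia K) {e : ℝ × ℝ} (he : e ≠ 0) :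
    ∃ T T' : ℝ × ℝ, T ∈ frontier K ∧ T' ∈ frontier K ∧ (∀ x ∈ K, det2 e x ≤ det2 e T) ∧
      (∀ x ∈ K, det2 e T' ≤ det2 e x) ∧ det2 e (T' - T) ≠ 0 ∧
      (∀ x ∈ frontier K, refl e (T' - T) T x ∈ frontier K) ∧
      det2 (centroid K - T) (T' - T) = 0 ∧ inertia K e (T' - T) = 0 := by
  obtain ⟨T, hT, T', hT', hmax, hmin⟩ := support_points hK hne he
  have hδ := support_ne hne he hmax hmin
  have hSK : ∀ x ∈ K, refl e (T' - T) T x ∈ K := fun x hx =>
    refl_mem hK hs hdia he hT hT' hmax hmin hδ hx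
  have hodd : ∀ x, det2 (refl e (T' - T) T x - T) (T' - T) = - det2 (x - T) (T' - T) := by
    intro x
    have : refl e (T' - T) T x - T = (x - T) - (2 * det2 (x - T) (T' - T) / det2 e (T' - T)) • e := by
      rw [refl]; abel
    rw [this, det2_sub_left, det2_smul_left, div_mul_cancel₀ _ hδ]; ring
  have hcen : det2 (centroid K - T) (T' - T) = 0 :=
    det2_centroid hK hne T (T' - T) (setIntegral_refl_odd hδ hSK _ hodd)
  refine ⟨T, T', hT, hT', hmax, hmin, hδ, fun x hx =>
    refl_mem_frontier hK hs hdia he hT hT' hmax hmin hδ hx, hcen, ?_⟩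
  rw [inertia_eq hK]
  refine setIntegral_refl_odd hδ hSK _ ?_
  intro x
  have h1 : det2 e (refl e (T' - T) T x - centroid K) = det2 e (x - centroid K) := by
    have : refl e (T' - T) T x - centroid K =
        (x - centroid K) - (2 * det2 (x - T) (T' - T) / det2 e (T' - T)) • e := by
      rw [refl]; abel
    rw [this, det2_sub_right, det2_smul_right, det2_self, mul_zero, sub_zero]
  have h2 : ∀ y, det2 (T' - T) (y - centroid K) = - det2 (y - T) (T' - T) := by
    intro y
    have : y - centroid K = (y - T) - (centroid K - T) := by abel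
    rw [this, det2_sub_right, det2_swap (y - T), det2_swap (centroid K - T), hcen]
    ring
  rw [h1, h2, h2, hodd]
  ring

lemma inertia_symm (u w : ℝ × ℝ) : inertia K u w = inertia K w u := by
  unfold inertia; ring

lemma inertia_add_left (u v w : ℝ × ℝ) : inertia K (u + v) w = inertia K u w + inertia K v w := by
  simp only [inertia, Prod.fst_add, Prod.snd_add]; ring

lemma inertia_sub_left (u v w : ℝ × ℝ) : inertia K (u - v) w = inertia K u w - inertia K v w := by
  simp only [inertia, Prod.fst_sub, Prod.snd_sub]; ring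

lemma inertia_smul_left (r : ℝ) (u w : ℝ × ℝ) : inertia K (r • u) w = r * inertia K u w := by
  simp only [inertia, Prod.smul_fst, Prod.smul_snd, smul_eq_mul]; ring

lemma inertia_smul_right (r : ℝ) (u w : ℝ × ℝ) : inertia K u (r • w) = r * inertia K u w := by
  rw [inertia_symm, inertia_smul_left, inertia_symm]

lemma inertia_add_right (u v w : ℝ × ℝ) : inertia K u (v + w) = inertia K u v + inertia K u w := by
  rw [inertia_symm, inertia_add_left, inertia_symm v, inertia_symm w]

lemma inertia_sub_right (u v w : ℝ × ℝ) : inertia K u (v - w) = inertia K u v - inertia K u w := by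
  rw [inertia_symm, inertia_sub_left, inertia_symm v, inertia_symm w]

lemma centroid_interior (hK : IsCompact K) (hs : StrictConvex ℝ K) (hne : (interior K).Nonempty)
    (hdia : Dia K) : centroid K ∈ interior K := by
  obtain ⟨p0, hp0⟩ := hne
  by_cases h0 : p0 = centroid K
  · rw [← h0]; exact hp0
  have he : p0 - centroid K ≠ 0 := sub_ne_zero.2 h0
  obtain ⟨T, T', hT, hT', hmax, hmin, hδ, -, hcen, -⟩ :=
    reflection_data hK hs ⟨p0, hp0⟩ hdia he
  set e := p0 - centroid K with hedef
  have ha : T' - T ≠ 0 := by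
    intro h; rw [h] at hδ; simp [det2] at hδ
  have hcen' : det2 (T' - T) (centroid K - T) = 0 := by rw [det2_swap, hcen, neg_zero]
  obtain ⟨α, hα⟩ := exists_smul_of_det2 ha hcen'
  have h1 : det2 e (centroid K) = det2 e p0 := by
    have : p0 = centroid K + e := by rw [hedef]; abel
    rw [this, det2_add_right, det2_self, add_zero]
  have h2 := interior_lt he hmax hp0
  have h3 := interior_gt he hmin hp0
  have h4 : det2 e (centroid K) = det2 e T + α * (det2 e T' - det2 e T) := by
    have : centroid K = T + α • (T' - T) := by rw [← hα]; abel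
    rw [this, det2_add_right, det2_smul_right, det2_sub_right]
  have hα0 : 0 < α := by
    by_contra hcon
    push Not at hcon
    nlinarith
  have hα1 : α < 1 := by
    by_contra hcon
    push Not at hcon
    nlinarith
  have : centroid K = T + α • (T' - T) := by rw [← hα]; abel
  rw [this]
  exact between_interior hs (frontier_sub hK hT) (frontier_sub hK hT')
    (fun h => ha (by rw [h, sub_self])) hα0 hα1

lemma ray_unique (hK : IsCompact K) (hs : StrictConvex ℝ K) {C X : ℝ × ℝ} {r : ℝ}
    (hC : C ∈ interior K) (hX : X ∈ frontier K) (hr : 0 < r)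
    (hY : C + r • (X - C) ∈ frontier K) : r = 1 := by
  have hXC : X - C ≠ 0 := by
    intro h; rw [sub_eq_zero] at h; exact not_interior hX (h ▸ hC)
  by_contra hr1
  rcases lt_or_gt_of_ne hr1 with h | h
  · exact not_interior hY (between_interior hs (interior_subset hC) (frontier_sub hK hX)
      (fun h => hXC (by rw [h, sub_self])) hr h)
  · have h1 := between_interior hs (interior_subset hC) (frontier_sub hK hY) (by
      intro h
      have : r • (X - C) = 0 := by simpa using h.symm
      rcases smul_eq_zero.1 this with h | h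
      · linarith
      · exact hXC h) (r := r⁻¹) (by positivity) (inv_lt_one_of_one_lt₀ h)
    apply not_interior hX
    convert h1 using 1
    rw [add_sub_cancel_left, smul_smul, inv_mul_cancel₀ hr.ne', one_smul]
    abel

lemma norm_eq (hK : IsCompact K) (hs : StrictConvex ℝ K) (hne : (interior K).Nonempty)
    (hdia : Dia K) {X Y : ℝ × ℝ} (hX : X ∈ frontier K) (hY : Y ∈ frontier K) :
    inertia K (X - centroid K) (X - centroid K) = inertia K (Y - centroid K) (Y - centroid K) := by
  set C := centroid K with hCdef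
  have hC : C ∈ interior K := centroid_interior hK hs hne hdia
  have hXC : X - C ≠ 0 := by
    intro h; rw [sub_eq_zero] at h; exact not_interior hX (h ▸ hC)
  have hYC : Y - C ≠ 0 := by
    intro h; rw [sub_eq_zero] at h; exact not_interior hY (h ▸ hC)
  have hNX := inertia_pos hK hne hXC
  have hNY := inertia_pos hK hne hYC
  set nX : ℝ := √(inertia K (X - C) (X - C)) with hnX
  set nY : ℝ := √(inertia K (Y - C) (Y - C)) with hnY
  have hnX0 : 0 < nX := Real.sqrt_pos.2 hNX
  have hnY0 : 0 < nY := Real.sqrt_pos.2 hNY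
  have hnX2 : nX ^ 2 = inertia K (X - C) (X - C) := Real.sq_sqrt hNX.le
  have hnY2 : nY ^ 2 = inertia K (Y - C) (Y - C) := Real.sq_sqrt hNY.le
  suffices nX = nY by rw [← hnX2, ← hnY2, this]
  set x : ℝ × ℝ := nX⁻¹ • (X - C) with hx
  set y : ℝ × ℝ := nY⁻¹ • (Y - C) with hy
  have hXx : X - C = nX • x := by rw [hx, smul_smul, mul_inv_cancel₀ hnX0.ne', one_smul]
  have hYy : Y - C = nY • y := by rw [hy, smul_smul, mul_inv_cancel₀ hnY0.ne', one_smul]
  have hNx : inertia K x x = 1 := by
    rw [hx, inertia_smul_left, inertia_smul_right, ← hnX2]; field_simp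
  have hNy : inertia K y y = 1 := by
    rw [hy, inertia_smul_left, inertia_smul_right, ← hnY2]; field_simp
  -- the reflected point
  have key : C + (nX / nY) • (Y - C) ∈ frontier K := by
    by_cases hxy : x = y
    · rw [hYy, smul_smul, div_mul_cancel₀ _ hnY0.ne', ← hxy, ← hXx]
      simpa using hX
    · have he : x - y ≠ 0 := sub_ne_zero.2 hxy
      obtain ⟨T, T', hT, hT', hmax, hmin, hδ, hS, hcen, hin⟩ :=
        reflection_data hK hs hne hdia he
      set e := x - y with hedef
      set a := T' - T with hadef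
      have hNe := inertia_pos hK hne he
      have h1 : inertia K e (x + y) = 0 := by
        rw [hedef, inertia_sub_left, inertia_add_right, inertia_add_right, hNx, hNy,
          inertia_symm y x]
        ring
      have hcramer : (det2 e a) • (x + y) = (det2 (x + y) a) • e + (det2 e (x + y)) • a := by
        ext
        · simp only [det2, Prod.smul_fst, Prod.fst_add, smul_eq_mul, Prod.snd_add]; ring
        · simp only [det2, Prod.smul_snd, Prod.snd_add, smul_eq_mul, Prod.fst_add]; ring
      have h2 : det2 (x + y) a = 0 := by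
        have h3 := congrArg (inertia K e) hcramer
        rw [inertia_smul_right, h1, inertia_add_right, inertia_smul_right, inertia_smul_right,
          hin] at h3
        have : det2 (x + y) a * inertia K e e = 0 := by linarith
        rcases mul_eq_zero.1 this with h | h
        · exact h
        · exact absurd h hNe.ne'
      have h3 : det2 (X - T) a = nX / 2 * det2 e a := by
        have e1 : X - T = (X - C) + (C - T) := by abel
        have e2 : x = (1/2 : ℝ) • (x + y) + (1/2 : ℝ) • e := by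
          rw [hedef]
          ext
          · simp only [Prod.fst_add, Prod.fst_sub, Prod.smul_fst, smul_eq_mul]; ring
          · simp only [Prod.snd_add, Prod.snd_sub, Prod.smul_snd, smul_eq_mul]; ring
        have e3 : det2 x a = 1/2 * det2 e a := by
          rw [e2, det2_add_left, det2_smul_left, det2_smul_left, h2]; ring
        rw [e1, det2_add_left, hcen, add_zero, hXx, det2_smul_left, e3]
        ring
      have h4 := hS X hX
      rw [refl, h3] at h4
      have h5 : 2 * (nX / 2 * det2 e a) / det2 e a = nX := by field_simp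
      rw [h5] at h4
      convert h4 using 1
      rw [hYy, smul_smul, div_mul_cancel₀ _ hnY0.ne']
      have : X = C + nX • x := by rw [← hXx]; abel
      rw [this, hedef, smul_sub]
      abel
  have h6 := ray_unique hK hs hC hY (div_pos hnX0 hnY0) key
  rw [div_eq_one_iff_eq hnY0.ne'] at h6
  exact h6

/-- the curve is a level set of the inertia form -/
lemma frontier_eq (hK : IsCompact K) (hs : StrictConvex ℝ K) (hne : (interior K).Nonempty)
    (hdia : Dia K) : ∃ ρ : ℝ, 0 < ρ ∧
      frontier K = {x | inertia K (x - centroid K) (x - centroid K) = ρ} := by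
  have hC := centroid_interior hK hs hne hdia
  obtain ⟨T, hT, -⟩ := support_points hK hne (e := (1, 0)) (by simp)
  have hTC : T - centroid K ≠ 0 := by
    intro h; rw [sub_eq_zero] at h; exact not_interior hT (h ▸ hC)
  have hρ := inertia_pos hK hne hTC
  refine ⟨_, hρ, ?_⟩
  ext x
  constructor
  · intro hx
    exact norm_eq hK hs hne hdia hx hT
  · intro hx
    have hx' : inertia K (x - centroid K) (x - centroid K) =
      inertia K (T - centroid K) (T - centroid K) := hx
    have hxC : x - centroid K ≠ 0 := by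
      intro h
      rw [h] at hx'
      have : inertia K 0 0 = 0 := by simp [inertia]
      rw [this] at hx'
      linarith
    obtain ⟨s, hs0, hsf⟩ := exit_ray hK (interior_subset hC) hxC
    have h1 := norm_eq hK hs hne hdia hsf hT
    rw [add_sub_cancel_left, inertia_smul_left, inertia_smul_right, hx'] at h1
    have h2 : (s * s - 1) * inertia K (T - centroid K) (T - centroid K) = 0 := by linarith
    rcases mul_eq_zero.1 h2 with h | h
    · have hs1 : s = 1 := by nlinarith
      rw [hs1, one_smul] at hsf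
      simpa using hsf
    · exact absurd h hρ.ne'

/-- level sets of positive definite forms are ellipses -/
lemma ellipse_of_form {a b d ρ : ℝ} (ha : 0 < a) (hdisc : 0 < a * d - b ^ 2) (hρ : 0 < ρ)
    (C : ℝ × ℝ) : ∃ Φ : (ℝ × ℝ) ≃ᵃ[ℝ] (ℝ × ℝ),
      {x : ℝ × ℝ | a * (x.1 - C.1) ^ 2 + 2 * b * (x.1 - C.1) * (x.2 - C.2)
        + d * (x.2 - C.2) ^ 2 = ρ} = Φ '' {p : ℝ × ℝ | p.1 ^ 2 + p.2 ^ 2 = 1} := by
  set k : ℝ := √(a / ρ) with hk
  set m : ℝ := √((a * d - b ^ 2) / (a * ρ)) with hm
  have hk0 : 0 < k := Real.sqrt_pos.2 (by positivity)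
  have hm0 : 0 < m := Real.sqrt_pos.2 (by positivity)
  have hk2 : k ^ 2 = a / ρ := Real.sq_sqrt (by positivity)
  have hm2 : m ^ 2 = (a * d - b ^ 2) / (a * ρ) := Real.sq_sqrt (by positivity)
  let L : (ℝ × ℝ) ≃ₗ[ℝ] (ℝ × ℝ) :=
    { toFun := fun p => (p.1 / k - b / a * (p.2 / m), p.2 / m)
      invFun := fun u => (k * (u.1 + b / a * u.2), m * u.2)
      map_add' := by
        intro p q
        ext
        · simp only [Prod.fst_add, Prod.snd_add]; ring
        · simp only [Prod.snd_add]; ring
      map_smul' := by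
        intro r p
        ext
        · simp only [Prod.smul_fst, Prod.smul_snd, smul_eq_mul, RingHom.id_apply]; ring
        · simp only [Prod.smul_snd, smul_eq_mul, RingHom.id_apply]; ring
      left_inv := by
        intro p
        ext
        · simp only; field_simp; ring
        · simp only; field_simp
      right_inv := by
        intro p
        ext
        · simp only; field_simp; ring
        · simp only; field_simp }
  refine ⟨L.toAffineEquiv.trans (AffineEquiv.constVAdd ℝ (ℝ × ℝ) C), ?_⟩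
  ext x
  constructor
  · intro hx
    have hx' : a * (x.1 - C.1) ^ 2 + 2 * b * (x.1 - C.1) * (x.2 - C.2)
        + d * (x.2 - C.2) ^ 2 = ρ := hx
    refine ⟨L.symm (x - C), ?_, ?_⟩
    · have h1 : (L.symm (x - C)) = (k * ((x.1 - C.1) + b / a * (x.2 - C.2)), m * (x.2 - C.2)) := rfl
      rw [h1]
      simp only [mem_ofPred_eq]
      rw [mul_pow, mul_pow, hk2, hm2]
      field_simp
      nlinarith
    · have h1 : L (L.symm (x - C)) = x - C := L.apply_symm_apply _
      change C + L (L.symm (x - C)) = x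
      rw [h1]; abel
  · rintro ⟨p, hp, rfl⟩
    have hp' : p.1 ^ 2 + p.2 ^ 2 = 1 := hp
    have e1 : (((L.toAffineEquiv.trans (AffineEquiv.constVAdd ℝ (ℝ × ℝ) C)) p) : ℝ × ℝ) =
      C + (p.1 / k - b / a * (p.2 / m), p.2 / m) := rfl
    rw [e1]
    simp only [mem_ofPred_eq, Prod.fst_add, Prod.snd_add, add_sub_cancel_left]
    have e2 : a * (p.1 / k - b / a * (p.2 / m)) ^ 2 + 2 * b * (p.1 / k - b / a * (p.2 / m)) * (p.2 / m)
        + d * (p.2 / m) ^ 2 = a * p.1 ^ 2 / k ^ 2 + (a * d - b ^ 2) / a * p.2 ^ 2 / m ^ 2 := by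
      field_simp; ring
    rw [e2, hk2, hm2]
    field_simp
    exact hp'

end Final

/-- `c` is a regular `C^∞` parametrization, injective on a period, of an oval: the boundary of a
compact strictly convex plane set with non-empty interior. -/
def IsOval (c : ℝ → ℝ × ℝ) : Prop :=
  ContDiff ℝ ((⊤ : ℕ∞) : WithTop ℕ∞) c ∧ Function.Periodic c 1 ∧ Set.InjOn c (Set.Ico 0 1) ∧
    (∀ t : ℝ, deriv c t ≠ 0) ∧
    ∃ K : Set (ℝ × ℝ), IsCompact K ∧ StrictConvex ℝ K ∧ (interior K).Nonempty ∧
      frontier K = Set.range c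

/-- **Theorem.** Let `γ = range c` be an oval such that for all distinct points `P`, `Q` off `γ`
for which the line `PQ` meets `γ`, the map `F_{γ,P,Q} = σ_Q ∘ σ_P` is conjugate to a Mobius
transformation. Then `γ` is an ellipse (an affine image of the unit circle). -/
theorem result (c : ℝ → ℝ × ℝ) (hc : IsOval c)
    (hyp : ∀ P Q : ℝ × ℝ, P ≠ Q → P ∉ Set.range c → Q ∉ Set.range c →
      (∃ x ∈ Set.range c, Collinear ℝ {P, Q, x}) → ConjMobius c P Q) :
    ∃ Φ : (ℝ × ℝ) ≃ᵃ[ℝ] (ℝ × ℝ),
      Set.range c = Φ '' {p : ℝ × ℝ | p.1 ^ 2 + p.2 ^ 2 = 1} := by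
  obtain ⟨hsm, hper, hinj, hreg, K, hK, hs, hne, hr⟩ := hc
  have hd : Differentiable ℝ c := hsm.differentiable (by simp)
  have hdia : Dia K := fun A hA B hB hAB T hT T' hT' hmax hmin =>
    midpoint_on_diameter hK hs hd hper hinj hreg hr hyp hA hB hAB hT hT' hmax hmin
  obtain ⟨ρ, hρ, hf⟩ := frontier_eq hK hs hne hdia
  set I22 := ∫ x in K, (x.2 - (centroid K).2) ^ 2 with hI22
  set I12 := ∫ x in K, (x.1 - (centroid K).1) * (x.2 - (centroid K).2) with hI12
  set I11 := ∫ x in K, (x.1 - (centroid K).1) ^ 2 with hI11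
  have hform : ∀ u : ℝ × ℝ, inertia K u u = I22 * u.1 ^ 2 + 2 * (-I12) * u.1 * u.2
      + I11 * u.2 ^ 2 := by
    intro u
    simp only [inertia, ← hI22, ← hI12, ← hI11]; ring
  have ha : 0 < I22 := by
    have := inertia_pos hK hne (u := (1, 0)) (by simp)
    rw [hform] at this
    simpa using this
  have hdisc : 0 < I22 * I11 - (-I12) ^ 2 := by
    have := inertia_pos hK hne (u := (I12, I22)) (by
      intro h
      have := congrArg Prod.snd h
      simp only [Prod.snd_zero] at this
      linarith)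
    rw [hform] at this
    simp only at this
    have h2 : I22 * (I22 * I11 - (-I12) ^ 2) > 0 := by nlinarith
    exact (mul_pos_iff_of_pos_left ha).1 h2
  obtain ⟨Φ, hΦ⟩ := ellipse_of_form ha hdisc hρ (centroid K)
  refine ⟨Φ, ?_⟩
  rw [← hr, hf, ← hΦ]
  ext x
  simp only [mem_ofPred_eq, hform, Prod.fst_sub, Prod.snd_sub]

end

end Pool.Agent.Results.MP_035beb_an.Ellipse
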